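import Mathlib

/-! Definitions for the limit theorem on coverings of Erdos-Rankin type. -/

namespace Pool.Agent.Helper6.ER

open Finset

/-- primitive Dirichlet characters mod `f` -/
noncomputable def prim (f : ℕ) : Finset (DirichletCharacter ℂ f) := by
  classical
  exact Finset.univ.filter (fun ψ => ψ.IsPrimitive)

/-- nontrivial Dirichlet characters mod `d` -/
noncomputable def nontriv (d : ℕ) : Finset (DirichletCharacter ℂ d) := by
  classical
  exact Finset.univ.filter (fun χ => χ ≠ 1)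

lemma mem_prim {f : ℕ} {ψ : DirichletCharacter ℂ f} : ψ ∈ prim f ↔ ψ.IsPrimitive := by
  unfold prim
  simp

lemma mem_nontriv {d : ℕ} {χ : DirichletCharacter ℂ d} : χ ∈ nontriv d ↔ χ ≠ 1 := by
  unfold nontriv
  simp

/-- primes up to `x` -/
def PR (x : ℕ) : Finset ℕ := (range (x + 1)).filter Nat.Prime

lemma mem_PR {x p : ℕ} : p ∈ PR x ↔ p ≤ x ∧ p.Prime := by
  unfold PR
  rw [mem_filter, mem_range, Nat.lt_succ_iff]

/-- the `m` in `(M, 2M]` coprime to `R` -/
def MM (M R : ℕ) : Finset ℕ := (Ioc M (2 * M)).filter (fun m => Nat.Coprime m R)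

/-- bilinear character sum over all nontrivial characters mod `d` -/
noncomputable def EC (M R : ℕ) (P : Finset ℕ) (d : ℕ) : ℝ :=
  ∑ χ ∈ nontriv d, ‖∑ m ∈ MM M R, χ (m : ZMod d)‖ * ‖∑ p ∈ P, χ (p : ZMod d)‖

/-- exceptional primes of a covering with classes `a` -/
def ExcA (x y Q : ℕ) (a : ℕ → ℤ) : Finset ℕ :=
  (PR x).filter (fun p => Q < p ∧ ((p ≤ y ∧ (p : ℤ) ∣ a p) ∨ (y < p ∧ ¬ (p : ℤ) ∣ a p)))

end Pool.Agent.Helper6.ER
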