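import Mathlib
import Pool.Agent.Helper6.ER.Defs

/-! The modulus of the small zero classes and the set of small nonzero classes. -/

namespace Pool.Agent.Helper6.ER

open Finset

/-- primes `q ≤ Q` whose class is zero -/
def ZZ (Q : ℕ) (a : ℕ → ℤ) : Finset ℕ := (PR Q).filter (fun q => (q : ℤ) ∣ a q)

/-- product of the primes `q ≤ Q` whose class is zero -/
def RR (Q : ℕ) (a : ℕ → ℤ) : ℕ := ∏ q ∈ ZZ Q a, q

/-- primes `q ≤ y` whose class is not zero -/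
def NN (y : ℕ) (a : ℕ → ℤ) : Finset ℕ := (PR y).filter (fun q => ¬ (q : ℤ) ∣ a q)

lemma mem_ZZ {Q : ℕ} {a : ℕ → ℤ} {q : ℕ} : q ∈ ZZ Q a ↔ (q ≤ Q ∧ q.Prime) ∧ (q : ℤ) ∣ a q := by
  unfold ZZ
  rw [mem_filter, mem_PR]

lemma mem_NN {y : ℕ} {a : ℕ → ℤ} {q : ℕ} : q ∈ NN y a ↔ (q ≤ y ∧ q.Prime) ∧ ¬ (q : ℤ) ∣ a q := by
  unfold NN
  rw [mem_filter, mem_PR]

lemma RR_pos (Q : ℕ) (a : ℕ → ℤ) : 0 < RR Q a := by
  unfold RR
  exact Finset.prod_pos (fun q hq => (mem_ZZ.mp hq).1.2.pos)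

lemma RR_le (Q : ℕ) (a : ℕ → ℤ) : RR Q a ≤ ∏ q ∈ PR Q, q := by
  unfold RR ZZ
  apply Finset.prod_le_prod_of_subset_of_one_le' (Finset.filter_subset _ _)
  intro q hq _
  exact (mem_PR.mp hq).2.pos

lemma card_divisors_RR_le (Q : ℕ) (a : ℕ → ℤ) : (RR Q a).divisors.card ≤ ∏ q ∈ PR Q, q :=
  (Nat.card_divisors_le_self _).trans (RR_le Q a)

lemma prime_dvd_RR {Q : ℕ} {a : ℕ → ℤ} {q : ℕ} (hq : q.Prime) : q ∣ RR Q a ↔ q ∈ ZZ Q a := by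
  unfold RR
  rw [hq.prime.dvd_finsetProd_iff]
  constructor
  · rintro ⟨r, hr, hqr⟩
    have hr' := (mem_ZZ.mp hr).1.2
    rw [(Nat.prime_dvd_prime_iff_eq hq hr').mp hqr]
    exact hr
  · intro h
    exact ⟨q, h, dvd_rfl⟩

lemma primeFactors_RR (Q : ℕ) (a : ℕ → ℤ) : (RR Q a).primeFactors = ZZ Q a := by
  ext q
  rw [Nat.mem_primeFactors]
  constructor
  · rintro ⟨hq, hd, _⟩
    exact (prime_dvd_RR hq).mp hd
  · intro h
    have hq := (mem_ZZ.mp h).1.2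
    exact ⟨hq, (prime_dvd_RR hq).mpr h, (RR_pos Q a).ne'⟩

lemma NN_coprime {y Q : ℕ} {a : ℕ → ℤ} {q : ℕ} (hq : q ∈ NN y a) : Nat.Coprime q (RR Q a) := by
  have hp := (mem_NN.mp hq).1.2
  rw [hp.coprime_iff_not_dvd]
  intro h
  exact (mem_NN.mp hq).2 (mem_ZZ.mp ((prime_dvd_RR hp).mp h)).2

lemma totient_ratio (n : ℕ) (hn : 0 < n) :
    ((n.totient : ℝ) / n) = ∏ q ∈ n.primeFactors, (1 - 1 / (q : ℝ)) := by
  have h := Nat.totient_eq_mul_prod_factors n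
  have h2 : ((n.totient : ℚ) : ℝ) = ((n : ℚ) * ∏ p ∈ n.primeFactors, (1 - (p : ℚ)⁻¹) : ℚ) := by
    rw [h]
  push_cast at h2
  rw [h2]
  have hn' : (n : ℝ) ≠ 0 := by exact_mod_cast hn.ne'
  rw [mul_div_assoc, mul_comm, div_mul_cancel₀ _ hn']
  apply Finset.prod_congr rfl
  intro q _
  rw [one_div]

lemma ratio_prod (y Q : ℕ) (a : ℕ → ℤ) :
    ((RR Q a).totient : ℝ) / (RR Q a) * ∏ q ∈ NN y a, (1 - 1 / (q : ℝ)) =
      ∏ q ∈ ZZ Q a ∪ NN y a, (1 - 1 / (q : ℝ)) := by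
  rw [totient_ratio _ (RR_pos Q a), primeFactors_RR, Finset.prod_union]
  rw [Finset.disjoint_left]
  intro q h1 h2
  exact (mem_NN.mp h2).2 (mem_ZZ.mp h1).2

end Pool.Agent.Helper6.ER
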