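import Mathlib
import Pool.Agent.Helper6.ER.Basic

/-! The lower bound for one dyadic box. The analytic inputs are hypotheses here. -/

namespace Pool.Agent.Helper6.ER

open Finset

/-- the primes in `(x, k / (2M)]` -/
def PB (x k M : ℕ) : Finset ℕ := (Ioc x (k / (2 * M))).filter Nat.Prime

/-- pairs of the box which are not hit by the small nonzero classes -/
def TB (x k M y Q : ℕ) (a : ℕ → ℤ) : Finset (ℕ × ℕ) :=
  ((MM M (RR Q a)) ×ˢ (PB x k M)).filter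
    (fun t => ∀ q ∈ NN y a, ¬ (q : ℤ) ∣ ((t.1 * t.2 : ℕ) : ℤ) - a q)

/-- conclusion of `box_lower` for given constants -/
def BoxLower (A : ℕ) (Cb : ℝ) : Prop :=
    ∀ (E M X R : ℕ) (P N : Finset ℕ) (a : ℕ → ℤ), 1 ≤ E → 1 ≤ M → 1 ≤ R →
    (∀ q ∈ N, q.Prime ∧ Nat.log 2 q ≤ E ∧ Nat.Coprime q R ∧ ¬ (q : ℤ) ∣ a q) →
    16 * (2 ^ (A * (E + 1))) ^ 2 ≤ X →
    (∀ p ∈ P, p.Prime ∧ 2 ^ (A * (E + 1)) < p ∧ p ≤ X) →
    (1 / 2) * ((P.card : ℝ) * M * ((R.totient : ℝ) / R)) * ∏ q ∈ N, (1 - 1 / (q : ℝ)) -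
        Cb * R.divisors.card * ((E : ℝ) + 2) ^ 4 * (M : ℝ) ^ (3 / 4 : ℝ) *
          Real.sqrt (X * P.card) ≤
      ((((MM M R) ×ˢ P).filter
        (fun t => ∀ q ∈ N, ¬ (q : ℤ) ∣ ((t.1 * t.2 : ℕ) : ℤ) - a q)).card : ℝ)

/-- conclusion of `prime_count` -/
def PrimeCount (c B : ℝ) : Prop := ∀ (x X : ℕ), 2 ≤ x → B * x ≤ X →
    c * X / Real.log X ≤ (((Ioc x X).filter Nat.Prime).card : ℝ)

/-- conclusion of `prod_primes_ge` -/
def ProdGe (c : ℝ) : Prop := ∀ E : ℕ, 1 ≤ E → ∀ N : Finset ℕ,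
    (∀ q ∈ N, q.Prime ∧ Nat.log 2 q ≤ E) → c / E ≤ ∏ q ∈ N, (1 - 1 / (q : ℝ))

theorem box_est {A : ℕ} {Cb c B cM : ℝ} (hCb : 0 < Cb) (hc : 0 < c) (hcM : 0 < cM)
    (hbox : BoxLower A Cb) (hpc : PrimeCount c B) (hpg : ProdGe cM)
    {x k M y Q E : ℕ} {a : ℕ → ℤ} {L ρ : ℝ} (hx : 2 ≤ x) (hM : 1 ≤ M) (hQy : Q ≤ y)
    (hE1 : 1 ≤ E) (hE : Nat.log 2 y ≤ E) (hL : Real.log x ≤ L) (hL0 : 0 < L)
    (hkx : k ≤ x ^ 2) (hρ : ((∏ q ∈ PR Q, q : ℕ) : ℝ) ≤ ρ)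
    (hA : 16 * (2 ^ (A * (E + 1))) ^ 2 ≤ x) (hA2 : 2 ^ (A * (E + 1)) ≤ x)
    (hX : B * x ≤ ((k / (2 * M) : ℕ) : ℝ)) (hXx : x ≤ k / (2 * M))
    (herr : Cb * ρ * ((E : ℝ) + 2) ^ 4 * Real.sqrt (2 * L / c) ≤ cM / (4 * E) * (M : ℝ) ^ (1 / 4 : ℝ)) :
    (c * cM / 32) * k / (E * L) ≤ ((TB x k M y Q a).card : ℝ) := by
  classical
  obtain ⟨X, hXdef⟩ : ∃ X, X = k / (2 * M) := ⟨_, rfl⟩
  rw [← hXdef] at hX hXx
  have hE0 : (0 : ℝ) < E := by exact_mod_cast hE1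
  have hM0 : (0 : ℝ) < M := by exact_mod_cast hM
  have hX2 : 2 ≤ X := hx.trans hXx
  have hX0 : (0 : ℝ) < X := by exact_mod_cast (by omega : 0 < X)
  have hlogX : 0 < Real.log X := Real.log_pos (by exact_mod_cast hX2)
  have hXk : X ≤ k := by rw [hXdef]; exact Nat.div_le_self _ _
  have hx0 : (0 : ℝ) < x := by exact_mod_cast (by omega : 0 < x)
  have hlogX2 : Real.log X ≤ 2 * L := by
    have h1 : (X : ℝ) ≤ (x : ℝ) ^ 2 := by exact_mod_cast hXk.trans hkx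
    have h2 := Real.log_le_log hX0 h1
    rw [Real.log_pow] at h2
    push_cast at h2
    linarith
  obtain ⟨P, hP⟩ : ∃ P, P = PB x k M := ⟨_, rfl⟩
  have hPmem : ∀ p ∈ P, p.Prime ∧ x < p ∧ p ≤ X := by
    intro p hp
    rw [hP] at hp
    unfold PB at hp
    rw [mem_filter, mem_Ioc, ← hXdef] at hp
    exact ⟨hp.2, hp.1.1, hp.1.2⟩
  have hPcard : c * X / Real.log X ≤ (P.card : ℝ) := by
    have := hpc x X hx hX
    rw [hP]
    unfold PB
    rw [← hXdef]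
    exact this
  have hP0 : 0 < (P.card : ℝ) := lt_of_lt_of_le (by positivity) hPcard
  -- the box inequality
  have hb := hbox E M X (RR Q a) P (NN y a) a hE1 hM (RR_pos Q a)
    (by
      intro q hq
      have h := mem_NN.mp hq
      exact ⟨h.1.2, (Nat.log_mono_right h.1.1).trans hE, NN_coprime hq, h.2⟩)
    (hA.trans hXx)
    (by
      intro p hp
      have h := hPmem p hp
      exact ⟨h.1, lt_of_le_of_lt hA2 h.2.1, h.2.2⟩)
  have hT : (TB x k M y Q a).card = (((MM M (RR Q a)) ×ˢ P).filter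
        (fun t => ∀ q ∈ NN y a, ¬ (q : ℤ) ∣ ((t.1 * t.2 : ℕ) : ℤ) - a q)).card := by
    unfold TB
    rw [hP]
  rw [hT]
  refine le_trans ?_ hb
  -- main term
  have hprod : cM / E ≤ ((RR Q a).totient : ℝ) / (RR Q a) * ∏ q ∈ NN y a, (1 - 1 / (q : ℝ)) := by
    rw [ratio_prod]
    apply hpg E hE1
    intro q hq
    rw [mem_union] at hq
    rcases hq with hq | hq
    · have h := mem_ZZ.mp hq
      exact ⟨h.1.2, (Nat.log_mono_right (h.1.1.trans hQy)).trans hE⟩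
    · have h := mem_NN.mp hq
      exact ⟨h.1.2, (Nat.log_mono_right h.1.1).trans hE⟩
  have hmain : (1 / 2) * ((P.card : ℝ) * M) * (cM / E) ≤
      (1 / 2) * ((P.card : ℝ) * M * (((RR Q a).totient : ℝ) / (RR Q a))) *
        ∏ q ∈ NN y a, (1 - 1 / (q : ℝ)) := by
    have h1 : (1 / 2) * ((P.card : ℝ) * M * (((RR Q a).totient : ℝ) / (RR Q a))) *
        ∏ q ∈ NN y a, (1 - 1 / (q : ℝ)) = (1 / 2) * ((P.card : ℝ) * M) *
        (((RR Q a).totient : ℝ) / (RR Q a) * ∏ q ∈ NN y a, (1 - 1 / (q : ℝ))) := by ring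
    rw [h1]
    exact mul_le_mul_of_nonneg_left hprod (by positivity)
  -- square root
  have hsq : Real.sqrt (X * P.card) ≤ P.card * Real.sqrt (2 * L / c) := by
    have h1 : (X : ℝ) ≤ P.card * (2 * L / c) := by
      rw [div_le_iff₀ hlogX] at hPcard
      have h2 : c * X ≤ P.card * (2 * L) :=
        hPcard.trans (mul_le_mul_of_nonneg_left hlogX2 hP0.le)
      rw [← mul_div_assoc, le_div_iff₀ hc]
      linarith
    calc Real.sqrt (X * P.card) ≤ Real.sqrt ((P.card : ℝ) ^ 2 * (2 * L / c)) := by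
          apply Real.sqrt_le_sqrt
          have := mul_le_mul_of_nonneg_right h1 hP0.le
          calc (X : ℝ) * P.card ≤ P.card * (2 * L / c) * P.card := this
            _ = (P.card : ℝ) ^ 2 * (2 * L / c) := by ring
      _ = P.card * Real.sqrt (2 * L / c) := by
          rw [Real.sqrt_mul (by positivity), Real.sqrt_sq hP0.le]
  have hdiv : ((RR Q a).divisors.card : ℝ) ≤ ρ := by
    refine le_trans ?_ hρ
    exact_mod_cast card_divisors_RR_le Q a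
  have hρ0 : 0 ≤ ρ := le_trans (by positivity) hdiv
  have hM34 : (M : ℝ) ^ (3 / 4 : ℝ) * (M : ℝ) ^ (1 / 4 : ℝ) = M := by
    rw [← Real.rpow_add hM0]
    norm_num
  have hM34' : 0 < (M : ℝ) ^ (3 / 4 : ℝ) := Real.rpow_pos_of_pos hM0 _
  have herr2 : Cb * ((RR Q a).divisors.card : ℝ) * ((E : ℝ) + 2) ^ 4 * (M : ℝ) ^ (3 / 4 : ℝ) *
          Real.sqrt (X * P.card) ≤ (1 / 4) * ((P.card : ℝ) * M) * (cM / E) := by
    calc Cb * ((RR Q a).divisors.card : ℝ) * ((E : ℝ) + 2) ^ 4 * (M : ℝ) ^ (3 / 4 : ℝ) *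
          Real.sqrt (X * P.card)
        ≤ Cb * ρ * ((E : ℝ) + 2) ^ 4 * (M : ℝ) ^ (3 / 4 : ℝ) * (P.card * Real.sqrt (2 * L / c)) := by
          gcongr
      _ = (Cb * ρ * ((E : ℝ) + 2) ^ 4 * Real.sqrt (2 * L / c)) * ((M : ℝ) ^ (3 / 4 : ℝ) * P.card) := by
          ring
      _ ≤ (cM / (4 * E) * (M : ℝ) ^ (1 / 4 : ℝ)) * ((M : ℝ) ^ (3 / 4 : ℝ) * P.card) :=
          mul_le_mul_of_nonneg_right herr (by positivity)
      _ = cM / (4 * E) * ((M : ℝ) ^ (3 / 4 : ℝ) * (M : ℝ) ^ (1 / 4 : ℝ)) * P.card := by ring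
      _ = (1 / 4) * ((P.card : ℝ) * M) * (cM / E) := by
          rw [hM34]
          field_simp
  have hfin : (c * cM / 32) * k / (E * L) ≤ (1 / 4) * ((P.card : ℝ) * M) * (cM / E) := by
    -- X ≥ k / (4 M)
    have h1 : (k : ℝ) ≤ X * (4 * M) := by
      have h2 : k < (X + 1) * (2 * M) := by
        rw [hXdef, mul_comm]
        exact Nat.lt_mul_div_succ k (by omega)
      have h3 : k ≤ X * (4 * M) := by nlinarith
      exact_mod_cast h3
    have h2 : c * X / (2 * L) ≤ P.card := by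
      refine le_trans ?_ hPcard
      exact div_le_div_of_nonneg_left (by positivity) hlogX hlogX2
    calc (c * cM / 32) * k / (E * L) ≤ (c * cM / 32) * (X * (4 * M)) / (E * L) := by
          gcongr
      _ = (1 / 4) * ((c * X / (2 * L)) * M) * (cM / E) := by
          field_simp
          ring
      _ ≤ _ := by gcongr
  linarith

end Pool.Agent.Helper6.ER
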