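import Mathlib
import Pool.Agent.Helper6.ER.Box

/-! The uncovered numbers `m P` must be covered by exceptional primes. -/

namespace Pool.Agent.Helper6.ER

open Finset

/-- the `t ≤ k` covered by `p` and not covered by the primes outside `Dx` -/
def UP (x k : ℕ) (Dx : Finset ℕ) (a : ℕ → ℤ) (p : ℕ) : Finset ℕ :=
  (Icc 1 k).filter (fun t : ℕ => (p : ℤ) ∣ (t : ℤ) - a p ∧
      ∀ q ∈ PR x \ Dx, ¬ (q : ℤ) ∣ (t : ℤ) - a q)

lemma mem_ExcA {x y Q : ℕ} {a : ℕ → ℤ} {p : ℕ} : p ∈ ExcA x y Q a ↔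
    (p ≤ x ∧ p.Prime) ∧ (Q < p ∧ ((p ≤ y ∧ (p : ℤ) ∣ a p) ∨ (y < p ∧ ¬ (p : ℤ) ∣ a p))) := by
  unfold ExcA
  rw [mem_filter, mem_PR]

lemma mem_TB {x k M y Q : ℕ} {a : ℕ → ℤ} {t : ℕ × ℕ} : t ∈ TB x k M y Q a ↔
    (((M < t.1 ∧ t.1 ≤ 2 * M) ∧ Nat.Coprime t.1 (RR Q a)) ∧
      ((x < t.2 ∧ t.2 ≤ k / (2 * M)) ∧ t.2.Prime)) ∧
    ∀ q ∈ NN y a, ¬ (q : ℤ) ∣ ((t.1 * t.2 : ℕ) : ℤ) - a q := by
  unfold TB MM PB
  rw [mem_filter, mem_product, mem_filter, mem_filter, mem_Ioc, mem_Ioc]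

theorem union_bound {x k y Q : ℕ} {a : ℕ → ℤ} (I : Finset ℕ) (hyx : y ≤ x)
    (hQy : Q ≤ y) (hI : ∀ i ∈ I, 2 * 2 ^ i ≤ y)
    (hcov : ∀ t ∈ Icc 1 k, ∃ p ∈ PR x, (p : ℤ) ∣ (t : ℤ) - a p) :
    ∑ i ∈ I, (TB x k (2 ^ i) y Q a).card ≤
      ∑ p ∈ ExcA x y Q a, (UP x k (ExcA x y Q a) a p).card := by
  classical
  obtain ⟨U, hU⟩ : ∃ U, U = (Icc 1 k).filter
      (fun t : ℕ => ∀ q ∈ PR x \ ExcA x y Q a, ¬ (q : ℤ) ∣ (t : ℤ) - a q) := ⟨_, rfl⟩
  have h1 : ∑ i ∈ I, (TB x k (2 ^ i) y Q a).card ≤ U.card := by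
    rw [← Finset.card_sigma]
    apply Finset.card_le_card_of_injOn (fun s : (Σ _ : ℕ, ℕ × ℕ) => s.2.1 * s.2.2)
    · rintro ⟨i, m, P⟩ hs
      rw [Finset.mem_coe, Finset.mem_sigma] at hs
      obtain ⟨hi, ht⟩ := hs
      rw [mem_TB] at ht
      obtain ⟨⟨⟨⟨hm1, hm2⟩, hmR⟩, ⟨hP1, hP2⟩, hPp⟩, hN⟩ := ht
      dsimp only at *
      have hy2 := hI i hi
      have hpos : 0 < 2 ^ i := by positivity
      rw [Finset.mem_coe, hU, mem_filter, mem_Icc]
      refine ⟨⟨Nat.mul_pos (by omega) hPp.pos, ?_⟩, ?_⟩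
      · calc m * P ≤ (2 * 2 ^ i) * (k / (2 * 2 ^ i)) := Nat.mul_le_mul hm2 hP2
          _ ≤ k := Nat.mul_div_le _ _
      · intro q hq hdvd
        rw [mem_sdiff, mem_PR] at hq
        obtain ⟨⟨hqx, hqp⟩, hqE⟩ := hq
        rw [mem_ExcA] at hqE
        have hqP : ¬ q ∣ P := by
          intro h
          have := (Nat.prime_dvd_prime_iff_eq hqp hPp).mp h
          omega
        by_cases hqa : (q : ℤ) ∣ a q
        · -- zero class
          have hdvd2 : (q : ℤ) ∣ ((m * P : ℕ) : ℤ) := by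
            have := dvd_add hdvd hqa
            rwa [sub_add_cancel] at this
          have hdvd3 : q ∣ m * P := by exact_mod_cast hdvd2
          have hqm : q ∣ m := by
            rcases hqp.dvd_mul.mp hdvd3 with h | h
            · exact h
            · exact absurd h hqP
          by_cases hqQ : q ≤ Q
          · have : q ∣ RR Q a := (prime_dvd_RR hqp).mpr (mem_ZZ.mpr ⟨⟨hqQ, hqp⟩, hqa⟩)
            have h2 := Nat.dvd_gcd hqm this
            rw [hmR] at h2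
            have := hqp.one_lt
            have := Nat.le_of_dvd (by norm_num) h2
            omega
          · by_cases hqy : q ≤ y
            · exact hqE ⟨⟨hqx, hqp⟩, by omega, Or.inl ⟨hqy, hqa⟩⟩
            · have := Nat.le_of_dvd (by omega) hqm
              omega
        · by_cases hqy : q ≤ y
          · exact hN q (mem_NN.mpr ⟨⟨hqy, hqp⟩, hqa⟩) hdvd
          · exact hqE ⟨⟨hqx, hqp⟩, by omega, Or.inr ⟨by omega, hqa⟩⟩
    · rintro ⟨i, m, P⟩ hs ⟨i', m', P'⟩ hs' heq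
      rw [Finset.mem_coe, Finset.mem_sigma] at hs hs'
      obtain ⟨hi, ht⟩ := hs
      obtain ⟨hi', ht'⟩ := hs'
      rw [mem_TB] at ht ht'
      obtain ⟨⟨⟨⟨hm1, hm2⟩, hmR⟩, ⟨hP1, hP2⟩, hPp⟩, hN⟩ := ht
      obtain ⟨⟨⟨⟨hm1', hm2'⟩, hmR'⟩, ⟨hP1', hP2'⟩, hPp'⟩, hN'⟩ := ht'
      dsimp only at *
      have hy2 := hI i hi
      have hy2' := hI i' hi'
      have hPP : P = P' := by
        have h : P ∣ m' * P' := ⟨m, by rw [← heq, mul_comm]⟩
        rcases hPp.dvd_mul.mp h with h | h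
        · have := Nat.le_of_dvd (by omega) h
          omega
        · exact (Nat.prime_dvd_prime_iff_eq hPp hPp').mp h
      subst hPP
      have hmm : m = m' := Nat.eq_of_mul_eq_mul_right hPp.pos heq
      subst hmm
      have hii : i = i' := by
        have h1 : 2 ^ i < 2 ^ (i' + 1) := by rw [pow_succ]; omega
        have h2 : 2 ^ i' < 2 ^ (i + 1) := by rw [pow_succ]; omega
        have h3 := (Nat.pow_lt_pow_iff_right (by norm_num : 1 < 2)).mp h1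
        have h4 := (Nat.pow_lt_pow_iff_right (by norm_num : 1 < 2)).mp h2
        omega
      subst hii
      rfl
  refine h1.trans ?_
  have h2 : U ⊆ (ExcA x y Q a).biUnion (fun p => UP x k (ExcA x y Q a) a p) := by
    intro t ht
    rw [hU, mem_filter] at ht
    obtain ⟨p, hp, hpd⟩ := hcov t ht.1
    rw [mem_biUnion]
    have hpE : p ∈ ExcA x y Q a := by
      by_contra h
      exact ht.2 p (mem_sdiff.mpr ⟨hp, h⟩) hpd
    refine ⟨p, hpE, ?_⟩
    unfold UP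
    rw [mem_filter]
    exact ⟨ht.1, hpd, ht.2⟩
  exact (Finset.card_le_card h2).trans Finset.card_biUnion_le

end Pool.Agent.Helper6.ER
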