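import Mathlib
import Pool.Agent.Helper6.ER.Union

/-! Assembly of the core inequality from the analytic inputs. -/

namespace Pool.Agent.Helper6.ER

open Finset

/-- conclusion of `capacity` -/
def Capacity (C : ℝ) : Prop := ∀ (x k p : ℕ) (Dx : Finset ℕ) (a : ℕ → ℤ), p ∈ Dx →
    (∀ q ∈ Dx, q.Prime ∧ q ≤ x) → ∑ q ∈ Dx, (1 : ℝ) / q ≤ 1 → 2 * x ≤ k → k ≤ x ^ 2 →
    (((Icc 1 k).filter (fun t : ℕ => (p : ℤ) ∣ (t : ℤ) - a p ∧
      ∀ q ∈ PR x \ Dx, ¬ (q : ℤ) ∣ (t : ℤ) - a q)).card : ℝ) ≤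
      C * ((k : ℝ) / p) / Real.log ((k : ℝ) / p)

/-- the main inequality for one `x`, under explicit largeness conditions -/
theorem core_step {A : ℕ} {Cb c B cM Cc : ℝ} (hA1 : 1 ≤ A) (hCb : 0 < Cb) (hc : 0 < c)
    (hcM : 0 < cM) (hCc : 0 < Cc)
    (hbox : BoxLower A Cb) (hpc : PrimeCount c B) (hpg : ProdGe cM) (hcap : Capacity Cc)
    {x k y Q : ℕ} {a : ℕ → ℤ} {ρ L : ℝ} (hLdef : L = Real.log x) (hx : 2 ≤ x)
    (hρ : ((∏ q ∈ PR Q, q : ℕ) : ℝ) ≤ ρ)
    (hL2 : 2 ≤ L) (hLQ : (Q : ℝ) ≤ L) (hLB : B ≤ L)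
    (hLe : 64 * Cb * ρ * Real.sqrt (2 / c) / cM ≤ L)
    (hxA : 16 * 4 ^ A ≤ (x : ℝ) ^ (3 / 4 : ℝ))
    (hy1 : L ^ (200 : ℝ) ≤ y) (hy2 : (y : ℝ) ≤ (x : ℝ) ^ (1 / (8 * A) : ℝ))
    (hk1 : x * L ^ (200 : ℝ) ≤ k) (hk2 : k ≤ x ^ 2)
    (hcov : ∀ t ∈ Icc 1 k, ∃ p ∈ PR x, (p : ℤ) ∣ (t : ℤ) - a p) :
    min (1 / 2) (c * cM / (128 * Cc)) * min 1 (Real.log ((k : ℝ) / x) / Real.log y) ≤
      ∑ p ∈ ExcA x y Q a, (1 / (p : ℝ)) * (L / Real.log ((k : ℝ) / p)) := by
  classical
  have hL0 : 0 < L := by linarith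
  have hx0 : (0 : ℝ) < x := by exact_mod_cast (by omega : 0 < x)
  have hx1 : (1 : ℝ) ≤ x := by exact_mod_cast (by omega : 1 ≤ x)
  have hAr : (1 : ℝ) ≤ A := by exact_mod_cast hA1
  have hlog2 : 0 < Real.log 2 := Real.log_pos (by norm_num)
  have hlogL : Real.log 2 ≤ Real.log L := Real.log_le_log (by norm_num) hL2
  have hL200 : (2 : ℝ) ≤ L ^ (200 : ℝ) := by
    calc (2 : ℝ) ≤ L := hL2
      _ = L ^ (1 : ℝ) := (Real.rpow_one L).symm
      _ ≤ L ^ (200 : ℝ) := Real.rpow_le_rpow_of_exponent_le (by linarith) (by norm_num)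
  have hLL : L ≤ L ^ (200 : ℝ) := by
    calc L = L ^ (1 : ℝ) := (Real.rpow_one L).symm
      _ ≤ L ^ (200 : ℝ) := Real.rpow_le_rpow_of_exponent_le (by linarith) (by norm_num)
  have hy2' : (2 : ℝ) ≤ y := hL200.trans hy1
  have hy0 : (0 : ℝ) < y := by linarith
  have hk0 : (0 : ℝ) < k := lt_of_lt_of_le (by positivity) hk1
  have hk2x : 2 * x ≤ k := by
    have h : (2 : ℝ) * x ≤ k := by
      refine le_trans ?_ hk1
      rw [mul_comm]
      exact mul_le_mul_of_nonneg_left hL200 hx0.le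
    exact_mod_cast h
  have hlogy : 200 * Real.log L ≤ Real.log y := by
    have := Real.log_le_log (by positivity) hy1
    rwa [Real.log_rpow hL0] at this
  have hlogy0 : 0 < Real.log y := by linarith
  have hK1 : L ^ (200 : ℝ) ≤ (k : ℝ) / x := by
    rw [le_div_iff₀ hx0]
    linarith
  have hlogK : 200 * Real.log L ≤ Real.log ((k : ℝ) / x) := by
    have := Real.log_le_log (by positivity) hK1
    rwa [Real.log_rpow hL0] at this
  -- positivity of log (k/p)
  have hExc : ∀ p ∈ ExcA x y Q a, p.Prime ∧ p ≤ x := by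
    intro p hp
    have := mem_ExcA.mp hp
    exact ⟨this.1.2, this.1.1⟩
  have hlogkp : ∀ p ∈ ExcA x y Q a, 0 < Real.log ((k : ℝ) / p) ∧
      Real.log ((k : ℝ) / p) ≤ 2 * L := by
    intro p hp
    obtain ⟨hpp, hpx⟩ := hExc p hp
    have hp0 : (0 : ℝ) < p := by exact_mod_cast hpp.pos
    constructor
    · apply Real.log_pos
      rw [lt_div_iff₀ hp0, one_mul]
      have : p < k := by omega
      exact_mod_cast this
    · have h1 : (k : ℝ) / p ≤ (x : ℝ) ^ 2 := by
        rw [div_le_iff₀ hp0]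
        have h2 : (k : ℝ) ≤ (x : ℝ) ^ 2 := by exact_mod_cast hk2
        have h3 : (1 : ℝ) ≤ p := by exact_mod_cast hpp.one_lt.le
        nlinarith [sq_nonneg (x : ℝ)]
      have h4 := Real.log_le_log (div_pos hk0 hp0) h1
      rw [Real.log_pow, ← hLdef] at h4
      push_cast at h4
      exact h4
  have hmin : min 1 (Real.log ((k : ℝ) / x) / Real.log y) ≤ 1 := min_le_left _ _
  have hmin0 : 0 ≤ min 1 (Real.log ((k : ℝ) / x) / Real.log y) := by
    apply le_min zero_le_one
    apply div_nonneg _ hlogy0.le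
    linarith
  rcases lt_or_ge 1 (∑ q ∈ ExcA x y Q a, (1 : ℝ) / q) with hbig | hsmall
  · -- many exceptional primes
    calc min (1 / 2) (c * cM / (128 * Cc)) * min 1 (Real.log ((k : ℝ) / x) / Real.log y)
        ≤ (1 / 2) * 1 := mul_le_mul (min_le_left _ _) hmin hmin0 (by norm_num)
      _ ≤ (1 / 2) * ∑ q ∈ ExcA x y Q a, (1 : ℝ) / q := by linarith
      _ = ∑ q ∈ ExcA x y Q a, (1 : ℝ) / q * (1 / 2) := by rw [← Finset.sum_mul]; ring
      _ ≤ ∑ p ∈ ExcA x y Q a, (1 / (p : ℝ)) * (L / Real.log ((k : ℝ) / p)) := by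
          apply Finset.sum_le_sum
          intro p hp
          obtain ⟨h1, h2⟩ := hlogkp p hp
          apply mul_le_mul_of_nonneg_left _ (by positivity)
          rw [div_le_div_iff₀ (by norm_num) h1]
          linarith
  · -- the main case
    obtain ⟨E, hE⟩ : ∃ E, E = Nat.log 2 y := ⟨_, rfl⟩
    have hyn : 2 ≤ y := by exact_mod_cast hy2'
    have hE1 : 1 ≤ E := by
      rw [hE]
      exact Nat.log_pos (by norm_num) hyn
    have hE0 : (0 : ℝ) < E := by exact_mod_cast hE1
    have h2E : (2 : ℝ) ^ E ≤ y := by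
      rw [hE]
      exact_mod_cast Nat.pow_log_le_self 2 (by omega)
    have hElog : (E : ℝ) * Real.log 2 ≤ Real.log y := by
      have := Real.log_le_log (by positivity) h2E
      rwa [Real.log_pow] at this
    have hlogyL : Real.log y ≤ L / 8 := by
      have h1 := Real.log_le_log hy0 hy2
      rw [Real.log_rpow hx0, ← hLdef] at h1
      have h2 : (1 / (8 * A) : ℝ) ≤ 1 / 8 := by
        apply div_le_div_of_nonneg_left (by norm_num) (by norm_num)
        linarith
      calc Real.log y ≤ 1 / (8 * A) * L := h1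
        _ ≤ (1 / 8) * L := mul_le_mul_of_nonneg_right h2 hL0.le
        _ = L / 8 := by ring
    have hlog2' : (1 : ℝ) / 2 < Real.log 2 := by have := Real.log_two_gt_d9; linarith
    have hEL : (E : ℝ) ≤ L := by nlinarith
    -- power of two conditions
    have hD : 16 * (2 ^ (A * (E + 1))) ^ 2 ≤ x := by
      have h1 : ((2 : ℝ) ^ E) ^ (2 * A) ≤ (x : ℝ) ^ (1 / 4 : ℝ) := by
        calc ((2 : ℝ) ^ E) ^ (2 * A) ≤ ((x : ℝ) ^ (1 / (8 * A) : ℝ)) ^ (2 * A) :=
              pow_le_pow_left₀ (by positivity) (h2E.trans hy2) _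
          _ = (x : ℝ) ^ (1 / 4 : ℝ) := by
              rw [← Real.rpow_natCast, ← Real.rpow_mul hx0.le]
              congr 1
              push_cast
              field_simp
              norm_num
      have h2 : (16 : ℝ) * (2 ^ (A * (E + 1))) ^ 2 = (16 * 4 ^ A) * ((2 : ℝ) ^ E) ^ (2 * A) := by
        rw [← pow_mul, ← pow_mul, show (4 : ℝ) = 2 ^ 2 by norm_num, ← pow_mul, mul_assoc (16 : ℝ),
          ← pow_add]
        congr 2
        ring
      have h3 : (16 : ℝ) * (2 ^ (A * (E + 1))) ^ 2 ≤ x := by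
        rw [h2]
        calc (16 * 4 ^ A) * ((2 : ℝ) ^ E) ^ (2 * A) ≤ (x : ℝ) ^ (3 / 4 : ℝ) * (x : ℝ) ^ (1 / 4 : ℝ) :=
              mul_le_mul hxA h1 (by positivity) (by positivity)
          _ = x := by
              rw [← Real.rpow_add hx0]
              norm_num
      exact_mod_cast h3
    have hD2 : 2 ^ (A * (E + 1)) ≤ x := by
      have h1 : 1 ≤ 2 ^ (A * (E + 1)) := Nat.one_le_two_pow
      nlinarith
    have hyx : y ≤ x := by
      have h1 : (y : ℝ) ≤ x := by
        refine hy2.trans ?_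
        calc (x : ℝ) ^ (1 / (8 * A) : ℝ) ≤ (x : ℝ) ^ (1 : ℝ) := by
              apply Real.rpow_le_rpow_of_exponent_le hx1
              rw [div_le_one (by positivity)]
              linarith
          _ = x := Real.rpow_one _
      exact_mod_cast h1
    have hQy : Q ≤ y := by
      have : (Q : ℝ) ≤ y := hLQ.trans (hLL.trans hy1)
      exact_mod_cast this
    -- the index set
    obtain ⟨T, hT⟩ : ∃ T, T = min (Real.log y) (Real.log ((k : ℝ) / x)) / Real.log 2 := ⟨_, rfl⟩
    have hTL : 200 * Real.log L ≤ T * Real.log 2 := by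
      rw [hT, div_mul_cancel₀ _ hlog2.ne']
      exact le_min hlogy hlogK
    have hT200 : 200 ≤ T := by
      by_contra h
      push Not at h
      have : T * Real.log 2 < 200 * Real.log 2 := mul_lt_mul_of_pos_right h hlog2
      linarith
    have hTy : T * Real.log 2 ≤ Real.log y := by
      rw [hT, div_mul_cancel₀ _ hlog2.ne']
      exact min_le_left _ _
    have hTK : T * Real.log 2 ≤ Real.log ((k : ℝ) / x) := by
      rw [hT, div_mul_cancel₀ _ hlog2.ne']
      exact min_le_right _ _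
    obtain ⟨I, hI⟩ : ∃ I, I = Ico ⌈3 / 20 * T⌉₊ ⌊T / 2⌋₊ := ⟨_, rfl⟩
    have hIcard : T / 4 ≤ (I.card : ℝ) := by
      rw [hI, Nat.card_Ico]
      have h1 : (⌈3 / 20 * T⌉₊ : ℝ) < 3 / 20 * T + 1 := Nat.ceil_lt_add_one (by linarith)
      have h2 : T / 2 < (⌊T / 2⌋₊ : ℝ) + 1 := Nat.lt_floor_add_one _
      have h3 : ⌈3 / 20 * T⌉₊ ≤ ⌊T / 2⌋₊ := by
        have : (⌈3 / 20 * T⌉₊ : ℝ) ≤ (⌊T / 2⌋₊ : ℝ) := by linarith
        exact_mod_cast this
      rw [Nat.cast_sub h3]
      linarith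
    have hImem : ∀ i ∈ I, L ^ 28 ≤ (2 : ℝ) ^ i ∧ 2 * 2 ^ i ≤ y ∧ (2 * 2 ^ i) ^ 2 * x ≤ k := by
      intro i hi
      rw [hI, mem_Ico] at hi
      have hi1 : 3 / 20 * T ≤ i := (Nat.le_ceil _).trans (by exact_mod_cast hi.1)
      have hi2 : (i : ℝ) + 1 ≤ T / 2 := by
        have h1 : (⌊T / 2⌋₊ : ℝ) ≤ T / 2 := Nat.floor_le (by linarith)
        have h2 : i + 1 ≤ ⌊T / 2⌋₊ := hi.2
        have h3 : ((i + 1 : ℕ) : ℝ) ≤ (⌊T / 2⌋₊ : ℝ) := by exact_mod_cast h2
        push_cast at h3
        linarith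
      have hi3 : ((i : ℝ) + 1) * Real.log 2 ≤ T / 2 * Real.log 2 :=
        mul_le_mul_of_nonneg_right hi2 hlog2.le
      refine ⟨?_, ?_, ?_⟩
      · rw [← Real.log_le_log_iff (by positivity) (by positivity), Real.log_pow, Real.log_pow]
        push_cast
        have h1 : 3 / 20 * T * Real.log 2 ≤ i * Real.log 2 := mul_le_mul_of_nonneg_right hi1 hlog2.le
        linarith
      · have h : ((2 : ℝ) * 2 ^ i) ≤ y := by
          rw [← Real.log_le_log_iff (by positivity) hy0, Real.log_mul (by norm_num) (by positivity),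
            Real.log_pow]
          linarith
        exact_mod_cast h
      · have h : ((2 : ℝ) * 2 ^ i) ^ 2 ≤ (k : ℝ) / x := by
          rw [← Real.log_le_log_iff (by positivity) (by positivity), Real.log_pow,
            Real.log_mul (by norm_num) (by positivity), Real.log_pow]
          push_cast
          linarith
        rw [le_div_iff₀ hx0] at h
        exact_mod_cast h
    -- box estimates
    have hboxes : ∀ i ∈ I, (c * cM / 32) * k / (E * L) ≤ ((TB x k (2 ^ i) y Q a).card : ℝ) := by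
      intro i hi
      obtain ⟨h1, h2, h3⟩ := hImem i hi
      have hMpos : 0 < 2 ^ i := by positivity
      have hXge : 2 * 2 ^ i * x ≤ k / (2 * 2 ^ i) := by
        rw [Nat.le_div_iff_mul_le (by positivity)]
        calc 2 * 2 ^ i * x * (2 * 2 ^ i) = (2 * 2 ^ i) ^ 2 * x := by ring
          _ ≤ k := h3
      have hL1 : (1 : ℝ) ≤ L := by linarith
      have hML : L ≤ (2 : ℝ) ^ i := le_trans (le_self_pow₀ hL1 (by norm_num)) h1
      apply box_est (B := B) (ρ := ρ) (A := A) (Cb := Cb) hCb hc hcM hbox hpc hpg hx hMpos hQy hE1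
        (by rw [hE]) hLdef.symm.le hL0 hk2 hρ hD hD2
      · calc B * x ≤ (2 * 2 ^ i) * x := by
              apply mul_le_mul_of_nonneg_right _ hx0.le
              linarith
          _ = ((2 * 2 ^ i * x : ℕ) : ℝ) := by push_cast; ring
          _ ≤ ((k / (2 * 2 ^ i) : ℕ) : ℝ) := by exact_mod_cast hXge
      · refine le_trans ?_ hXge
        exact Nat.le_mul_of_pos_left x (by positivity)
      · -- error condition
        have hM14 : L ^ 7 ≤ (((2 ^ i : ℕ) : ℝ)) ^ (1 / 4 : ℝ) := by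
          calc L ^ 7 = (L ^ 28) ^ (1 / 4 : ℝ) := by
                rw [← Real.rpow_natCast, ← Real.rpow_natCast, ← Real.rpow_mul hL0.le]
                norm_num
            _ ≤ (((2 ^ i : ℕ) : ℝ)) ^ (1 / 4 : ℝ) := by
                apply Real.rpow_le_rpow (by positivity) _ (by norm_num)
                push_cast
                exact h1
        have hρ0 : 0 ≤ ρ := le_trans (by positivity) hρ
        have hE4 : ((E : ℝ) + 2) ^ 4 ≤ (2 * L) ^ 4 := by
          apply pow_le_pow_left₀ (by positivity)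
          linarith
        have hs : Real.sqrt (2 * L / c) ≤ Real.sqrt (2 / c) * L := by
          calc Real.sqrt (2 * L / c) ≤ Real.sqrt ((2 / c) * L ^ 2) := by
                apply Real.sqrt_le_sqrt
                calc 2 * L / c = (2 / c) * L := by ring
                  _ ≤ (2 / c) * L ^ 2 := by
                      apply mul_le_mul_of_nonneg_left _ (by positivity)
                      nlinarith
            _ = Real.sqrt (2 / c) * L := by
                rw [Real.sqrt_mul (by positivity), Real.sqrt_sq hL0.le]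
        have hs0 : 0 ≤ Real.sqrt (2 / c) := Real.sqrt_nonneg _
        calc Cb * ρ * ((E : ℝ) + 2) ^ 4 * Real.sqrt (2 * L / c)
            ≤ Cb * ρ * (2 * L) ^ 4 * (Real.sqrt (2 / c) * L) := by gcongr
          _ = (64 * Cb * ρ * Real.sqrt (2 / c) / cM) * (cM / (4 * L) * L ^ 6) := by
              field_simp
              ring
          _ ≤ L * (cM / (4 * L) * L ^ 6) := by
              apply mul_le_mul_of_nonneg_right hLe (by positivity)
          _ = cM / (4 * L) * L ^ 7 := by ring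
          _ ≤ cM / (4 * E) * (((2 ^ i : ℕ) : ℝ)) ^ (1 / 4 : ℝ) := by gcongr
    -- total
    have hun := union_bound (x := x) (k := k) (y := y) (Q := Q) (a := a) I hyx hQy
      (fun i hi => (hImem i hi).2.1) hcov
    have hun' : (∑ i ∈ I, ((TB x k (2 ^ i) y Q a).card : ℝ)) ≤
        ∑ p ∈ ExcA x y Q a, ((UP x k (ExcA x y Q a) a p).card : ℝ) := by exact_mod_cast hun
    have hcapp : ∀ p ∈ ExcA x y Q a, ((UP x k (ExcA x y Q a) a p).card : ℝ) ≤
        Cc * ((k : ℝ) / p) / Real.log ((k : ℝ) / p) := by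
      intro p hp
      exact hcap x k p (ExcA x y Q a) a hp hExc hsmall hk2x hk2
    have hlow : (T / 4) * ((c * cM / 32) * k / (E * L)) ≤
        ∑ i ∈ I, ((TB x k (2 ^ i) y Q a).card : ℝ) := by
      calc (T / 4) * ((c * cM / 32) * k / (E * L)) ≤ I.card * ((c * cM / 32) * k / (E * L)) :=
            mul_le_mul_of_nonneg_right hIcard (by positivity)
        _ = ∑ _i ∈ I, ((c * cM / 32) * k / (E * L)) := by rw [sum_const, nsmul_eq_mul]
        _ ≤ _ := Finset.sum_le_sum hboxes
    have hTE : min 1 (Real.log ((k : ℝ) / x) / Real.log y) ≤ T / E := by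
      have h1 : min 1 (Real.log ((k : ℝ) / x) / Real.log y) =
          min (Real.log y) (Real.log ((k : ℝ) / x)) / Real.log y := by
        rw [← min_div_div_right hlogy0.le, div_self hlogy0.ne']
      rw [h1, hT]
      rw [div_div]
      apply div_le_div_of_nonneg_left _ (by positivity) (by linarith)
      exact le_min hlogy0.le (by linarith)
    have hfinal : (c * cM / (128 * Cc)) * min 1 (Real.log ((k : ℝ) / x) / Real.log y) ≤
        ∑ p ∈ ExcA x y Q a, (1 / (p : ℝ)) * (L / Real.log ((k : ℝ) / p)) := by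
      have h1 : (T / 4) * ((c * cM / 32) * k / (E * L)) ≤
          ∑ p ∈ ExcA x y Q a, Cc * ((k : ℝ) / p) / Real.log ((k : ℝ) / p) :=
        hlow.trans (hun'.trans (Finset.sum_le_sum hcapp))
      have h2 : ∑ p ∈ ExcA x y Q a, Cc * ((k : ℝ) / p) / Real.log ((k : ℝ) / p) =
          (Cc * k / L) * ∑ p ∈ ExcA x y Q a, (1 / (p : ℝ)) * (L / Real.log ((k : ℝ) / p)) := by
        rw [Finset.mul_sum]
        apply Finset.sum_congr rfl
        intro p hp
        have h3 := (hlogkp p hp).1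
        have h4 : (0 : ℝ) < p := by exact_mod_cast (hExc p hp).1.pos
        field_simp
      rw [h2] at h1
      have h5 : (T / 4) * ((c * cM / 32) * k / (E * L)) =
          (Cc * k / L) * ((c * cM / (128 * Cc)) * (T / E)) := by
        field_simp
        ring
      rw [h5] at h1
      have h6 := le_of_mul_le_mul_left h1 (by positivity)
      exact le_trans (mul_le_mul_of_nonneg_left hTE (by positivity)) h6
    exact le_trans (mul_le_mul_of_nonneg_right (min_le_right _ _) hmin0) hfinal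

end Pool.Agent.Helper6.ER
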