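import Mathlib
import Pool.Agent.Helper6.ER.Core

/-! The core theorem with absolute constants. -/

namespace Pool.Agent.Helper6.ER

open Finset Filter

theorem core_of {A : ℕ} {Cb c B cM Cc : ℝ} (hA1 : 1 ≤ A) (hCb : 0 < Cb) (hc : 0 < c)
    (hcM : 0 < cM) (hCc : 0 < Cc)
    (hbox : BoxLower A Cb) (hpc : PrimeCount c B) (hpg : ProdGe cM) (hcap : Capacity Cc) :
    ∃ (C c₀ c₁ : ℝ), 0 < C ∧ 0 < c₀ ∧ 0 < c₁ ∧ ∀ Q : ℕ, ∃ x₀ : ℕ, ∀ x ≥ x₀,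
    ∀ (y k : ℕ) (a : ℕ → ℤ), (Real.log x) ^ C ≤ y → (y : ℝ) ≤ (x : ℝ) ^ c₀ →
    x * (Real.log x) ^ C ≤ k → k ≤ x ^ 2 →
    (∀ t ∈ Icc 1 k, ∃ p ∈ PR x, (p : ℤ) ∣ (t : ℤ) - a p) →
    c₁ * min 1 (Real.log ((k : ℝ) / x) / Real.log y) ≤
      ∑ p ∈ ExcA x y Q a, (1 / (p : ℝ)) * (Real.log x / Real.log ((k : ℝ) / p)) := by
  have hAr : (1 : ℝ) ≤ A := by exact_mod_cast hA1
  refine ⟨200, 1 / (8 * A), min (1 / 2) (c * cM / (128 * Cc)), by norm_num, by positivity,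
    lt_min (by norm_num) (by positivity), ?_⟩
  intro Q
  obtain ⟨ρ, hρ⟩ : ∃ ρ : ℝ, ρ = ((∏ q ∈ PR Q, q : ℕ) : ℝ) := ⟨_, rfl⟩
  have hlog : Tendsto (fun x : ℕ => Real.log (x : ℝ)) atTop atTop :=
    Real.tendsto_log_atTop.comp tendsto_natCast_atTop_atTop
  have hpow : Tendsto (fun x : ℕ => (x : ℝ) ^ (3 / 4 : ℝ)) atTop atTop :=
    (tendsto_rpow_atTop (by norm_num)).comp tendsto_natCast_atTop_atTop
  have h1 := hlog.eventually_ge_atTop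
    (max (max 2 (Q : ℝ)) (max B (64 * Cb * ρ * Real.sqrt (2 / c) / cM)))
  have h2 := hpow.eventually_ge_atTop ((16 : ℝ) * 4 ^ A)
  obtain ⟨x₀, hx₀⟩ := eventually_atTop.mp (h1.and (h2.and (eventually_ge_atTop 2)))
  refine ⟨x₀, ?_⟩
  intro x hx y k a hy1 hy2 hk1 hk2 hcov
  obtain ⟨h3, h4, h5⟩ := hx₀ x hx
  have h6 := le_trans (le_max_left _ _) h3
  have h7 := le_trans (le_max_right _ _) h3
  exact core_step hA1 hCb hc hcM hCc hbox hpc hpg hcap rfl h5 hρ.symm.le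
    (le_trans (le_max_left _ _) h6) (le_trans (le_max_right _ _) h6)
    (le_trans (le_max_left _ _) h7) (le_trans (le_max_right _ _) h7) h4 hy1 hy2 hk1 hk2 hcov

end Pool.Agent.Helper6.ER
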