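import Mathlib
import Pool.Agent.Helper6.ER.CoreMain

/-! From one-sided coverings to runs of integers with small prime factors. -/

namespace Pool.Agent.Helper6.ER

open Finset Filter

/-- `n ∈ A(x,k)`: every one of `n+1, …, n+k` has a prime divisor `p ≤ x` -/
def InA (x k n : ℕ) : Prop := ∀ i ∈ Icc 1 k, ∃ p : ℕ, p.Prime ∧ p ≤ x ∧ p ∣ n + i

/-- the primes `Q < p ≤ x` which divide `m` although `p ≤ y`, or do not divide `m` although
`p > y` -/
def Exc (x y Q m : ℕ) : Finset ℕ :=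
  (range (x + 1)).filter
    (fun p => p.Prime ∧ Q < p ∧ ((p ≤ y ∧ p ∣ m) ∨ (y < p ∧ ¬ p ∣ m)))

lemma mem_Exc {x y Q m p : ℕ} : p ∈ Exc x y Q m ↔
    p ≤ x ∧ p.Prime ∧ Q < p ∧ ((p ≤ y ∧ p ∣ m) ∨ (y < p ∧ ¬ p ∣ m)) := by
  unfold Exc
  rw [mem_filter, mem_range, Nat.lt_succ_iff]

lemma ExcA_eq {x y Q m : ℕ} {b : ℤ} (hb : ∀ p : ℕ, (p : ℤ) ∣ b ↔ p ∣ m) :
    ExcA x y Q (fun _ => b) = Exc x y Q m := by
  ext p
  rw [mem_ExcA, mem_Exc, hb p]
  tauto

/-- the statement of part (A) for given constants -/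
def StA (C c₀ c₁ : ℝ) : Prop := ∀ Q : ℕ, ∃ x₀ : ℕ, ∀ x ≥ x₀,
    ∀ (y k n m : ℕ), (Real.log x) ^ C ≤ y → (y : ℝ) ≤ (x : ℝ) ^ c₀ →
    x * (Real.log x) ^ C ≤ k → k ≤ x ^ 2 → InA x k n → n ≤ m → m ≤ n + k →
    c₁ * min 1 (Real.log ((k : ℝ) / x) / Real.log y) ≤
      ∑ p ∈ Exc x y Q m, (1 / (p : ℝ)) * (Real.log x / Real.log ((k : ℝ) / p))

/-- the statement of the core theorem for given constants -/
def StCore (C c₀ c₁ : ℝ) : Prop := ∀ Q : ℕ, ∃ x₀ : ℕ, ∀ x ≥ x₀,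
    ∀ (y k : ℕ) (a : ℕ → ℤ), (Real.log x) ^ C ≤ y → (y : ℝ) ≤ (x : ℝ) ^ c₀ →
    x * (Real.log x) ^ C ≤ k → k ≤ x ^ 2 →
    (∀ t ∈ Icc 1 k, ∃ p ∈ PR x, (p : ℤ) ∣ (t : ℤ) - a p) →
    c₁ * min 1 (Real.log ((k : ℝ) / x) / Real.log y) ≤
      ∑ p ∈ ExcA x y Q a, (1 / (p : ℝ)) * (Real.log x / Real.log ((k : ℝ) / p))

/-- the longer side of `m` -/
lemma one_side {x k n m : ℕ} (hA : InA x k n) (hnm : n ≤ m) (hmk : m ≤ n + k) :
    ∃ (k' : ℕ) (b : ℤ), k ≤ 2 * k' + 1 ∧ k' ≤ k ∧ (∀ p : ℕ, (p : ℤ) ∣ b ↔ p ∣ m) ∧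
      ∀ t ∈ Icc 1 k', ∃ p ∈ PR x, (p : ℤ) ∣ (t : ℤ) - b := by
  obtain ⟨c, hc⟩ : ∃ c, m = n + c := ⟨m - n, by omega⟩
  subst hc
  rcases le_or_gt (2 * c) (k + 1) with h | h
  · -- right side, length k - c
    refine ⟨k - c, -((n + c : ℕ) : ℤ), by omega, by omega, ?_, ?_⟩
    · intro p
      rw [dvd_neg]
      exact Int.natCast_dvd_natCast
    · intro t ht
      rw [mem_Icc] at ht
      obtain ⟨p, hp, hpx, hd⟩ := hA (c + t) (mem_Icc.mpr ⟨by omega, by omega⟩)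
      refine ⟨p, mem_PR.mpr ⟨hpx, hp⟩, ?_⟩
      have h1 : (t : ℤ) - -((n + c : ℕ) : ℤ) = ((n + (c + t) : ℕ) : ℤ) := by
        push_cast
        ring
      rw [h1]
      exact_mod_cast hd
  · -- left side, length c - 1
    refine ⟨c - 1, ((n + c : ℕ) : ℤ), by omega, by omega, ?_, ?_⟩
    · intro p
      exact Int.natCast_dvd_natCast
    · intro t ht
      rw [mem_Icc] at ht
      obtain ⟨p, hp, hpx, hd⟩ := hA (c - t) (mem_Icc.mpr ⟨by omega, by omega⟩)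
      refine ⟨p, mem_PR.mpr ⟨hpx, hp⟩, ?_⟩
      have h1 : (t : ℤ) - ((n + c : ℕ) : ℤ) = -((n + (c - t) : ℕ) : ℤ) := by
        have : ((c - t : ℕ) : ℤ) = (c : ℤ) - t := by
          rw [Nat.cast_sub (by omega)]
        push_cast [this]
        ring
      rw [h1, dvd_neg]
      exact_mod_cast hd

theorem partA_of_core {C c₀ c₁ : ℝ} (hC : 0 < C) (hc₁ : 0 < c₁) (h : StCore C c₀ c₁) :
    StA (C + 1) c₀ (c₁ / 4) := by
  intro Q
  obtain ⟨x₁, hx₁⟩ := h Q
  have hlog : Tendsto (fun x : ℕ => Real.log (x : ℝ)) atTop atTop :=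
    Real.tendsto_log_atTop.comp tendsto_natCast_atTop_atTop
  obtain ⟨x₂, hx₂⟩ := eventually_atTop.mp (hlog.eventually_ge_atTop (9 : ℝ))
  refine ⟨max (max x₁ x₂) 2, ?_⟩
  intro x hx y k n m hy1 hy2 hk1 hk2 hA hnm hmk
  have hxx₁ : x₁ ≤ x := le_trans (le_trans (le_max_left _ _) (le_max_left _ _)) hx
  have hxx₂ : x₂ ≤ x := le_trans (le_trans (le_max_right _ _) (le_max_left _ _)) hx
  have hx2 : 2 ≤ x := le_trans (le_max_right _ _) hx
  have hL := hx₂ x hxx₂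
  obtain ⟨L, hLdef⟩ : ∃ L, L = Real.log x := ⟨_, rfl⟩
  rw [← hLdef] at hL hy1 hk1 ⊢
  have hL0 : 0 < L := by linarith
  have hx0 : (0 : ℝ) < x := by exact_mod_cast (by omega : 0 < x)
  have hLC : L ^ (C + 1) = L ^ C * L := by
    rw [Real.rpow_add hL0, Real.rpow_one]
  have hLC1 : 1 ≤ L ^ C := Real.one_le_rpow (by linarith) hC.le
  obtain ⟨k', b, hkk, hk'k, hb, hcov⟩ := one_side hA hnm hmk
  have hk9 : 9 * x ≤ k := by
    have : (9 : ℝ) * x ≤ k := by
      refine le_trans ?_ hk1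
      rw [hLC]
      have h9 : 9 ≤ L ^ C * L := by nlinarith
      calc (9 : ℝ) * x ≤ (L ^ C * L) * x := mul_le_mul_of_nonneg_right h9 hx0.le
        _ = x * (L ^ C * L) := by ring
    exact_mod_cast this
  have hk3 : k ≤ 3 * k' := by omega
  have hk3r : (k : ℝ) / 3 ≤ k' := by
    rw [div_le_iff₀ (by norm_num)]
    have : (k : ℝ) ≤ 3 * k' := by exact_mod_cast hk3
    linarith
  have hk0 : (0 : ℝ) < k := by
    have : 0 < k := by omega
    exact_mod_cast this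
  have hy1' : L ^ C ≤ y := by
    refine le_trans ?_ hy1
    rw [hLC]
    nlinarith
  have hk1' : x * L ^ C ≤ k' := by
    refine le_trans ?_ hk3r
    rw [le_div_iff₀ (by norm_num)]
    refine le_trans ?_ hk1
    rw [hLC]
    have : x * L ^ C * 3 ≤ x * L ^ C * L := mul_le_mul_of_nonneg_left (by linarith) (by positivity)
    linarith
  have hmain := hx₁ x hxx₁ y k' (fun _ => b) (by rw [← hLdef]; exact hy1') hy2
    (by rw [← hLdef]; exact hk1') (hk'k.trans hk2) hcov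
  rw [ExcA_eq hb, ← hLdef] at hmain
  -- logs
  have hy0 : (1 : ℝ) < y := by
    refine lt_of_lt_of_le ?_ hy1
    rw [hLC]
    nlinarith
  have hlogy : 0 < Real.log y := Real.log_pos hy0
  have hhalf : ∀ u : ℝ, 9 ≤ u → Real.log u / 2 ≤ Real.log (u / 3) := by
    intro u hu
    have h1 : Real.log 9 ≤ Real.log u := Real.log_le_log (by norm_num) hu
    have h2 : Real.log 9 = 2 * Real.log 3 := by
      rw [show (9 : ℝ) = 3 ^ 2 by norm_num, Real.log_pow]
      push_cast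
      ring
    rw [Real.log_div (by linarith) (by norm_num)]
    linarith
  have hlogK : Real.log ((k : ℝ) / x) / 2 ≤ Real.log ((k' : ℝ) / x) := by
    have h1 : (9 : ℝ) ≤ (k : ℝ) / x := by
      rw [le_div_iff₀ hx0]
      exact_mod_cast hk9
    refine (hhalf _ h1).trans ?_
    apply Real.log_le_log (by positivity)
    rw [div_right_comm]
    exact div_le_div_of_nonneg_right hk3r hx0.le
  have hmin : (1 / 2) * min 1 (Real.log ((k : ℝ) / x) / Real.log y) ≤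
      min 1 (Real.log ((k' : ℝ) / x) / Real.log y) := by
    apply le_min
    · have := min_le_left 1 (Real.log ((k : ℝ) / x) / Real.log y)
      linarith
    · have h1 := min_le_right 1 (Real.log ((k : ℝ) / x) / Real.log y)
      calc (1 / 2) * min 1 (Real.log ((k : ℝ) / x) / Real.log y)
          ≤ (1 / 2) * (Real.log ((k : ℝ) / x) / Real.log y) := by linarith
        _ = (Real.log ((k : ℝ) / x) / 2) / Real.log y := by ring
        _ ≤ _ := div_le_div_of_nonneg_right hlogK hlogy.le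
  have hsum : ∑ p ∈ Exc x y Q m, (1 / (p : ℝ)) * (L / Real.log ((k' : ℝ) / p)) ≤
      2 * ∑ p ∈ Exc x y Q m, (1 / (p : ℝ)) * (L / Real.log ((k : ℝ) / p)) := by
    rw [Finset.mul_sum]
    apply Finset.sum_le_sum
    intro p hp
    obtain ⟨hpx, hpp, _⟩ := mem_Exc.mp hp
    have hp0 : (0 : ℝ) < p := by exact_mod_cast hpp.pos
    have hpxr : (p : ℝ) ≤ x := by exact_mod_cast hpx
    have h1 : (9 : ℝ) ≤ (k : ℝ) / p := by
      rw [le_div_iff₀ hp0]
      have : (9 : ℝ) * x ≤ k := by exact_mod_cast hk9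
      nlinarith
    have h2 : Real.log ((k : ℝ) / p) / 2 ≤ Real.log ((k' : ℝ) / p) := by
      refine (hhalf _ h1).trans ?_
      apply Real.log_le_log (by positivity)
      rw [div_right_comm]
      exact div_le_div_of_nonneg_right hk3r hp0.le
    have h3 : 0 < Real.log ((k : ℝ) / p) := Real.log_pos (by linarith)
    have h4 : L / Real.log ((k' : ℝ) / p) ≤ 2 * (L / Real.log ((k : ℝ) / p)) := by
      rw [mul_div_assoc', div_le_div_iff₀ (by linarith) h3]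
      nlinarith
    calc (1 / (p : ℝ)) * (L / Real.log ((k' : ℝ) / p))
        ≤ (1 / (p : ℝ)) * (2 * (L / Real.log ((k : ℝ) / p))) :=
          mul_le_mul_of_nonneg_left h4 (by positivity)
      _ = 2 * ((1 / (p : ℝ)) * (L / Real.log ((k : ℝ) / p))) := by ring
  have hfin := hmain.trans hsum
  have h5 := mul_le_mul_of_nonneg_left hmin hc₁.le
  linarith

end Pool.Agent.Helper6.ER
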