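import Mathlib
import Pool.Agent.Helper6.ER.PartA
import Pool.Agent.Helper10.P5.Mert

/-! The limit of the Erdos-Rankin method. -/

namespace Pool.Agent.Helper6.ER

open Finset Filter

/-- the statement of part (B) for given constants -/
def StB (C c₀ : ℝ) : Prop := ∀ Q : ℕ, ∃ x₀ : ℕ, ∀ x ≥ x₀,
    ∀ (y z k n m : ℕ), (Real.log x) ^ C ≤ y → (y : ℝ) ≤ (x : ℝ) ^ c₀ →
    (x : ℝ) ^ (1 - c₀) ≤ z → z ≤ x → InA x k n → n ≤ m → m ≤ n + k →
    (∀ p : ℕ, p.Prime → Q < p → p ≤ y → ¬ p ∣ m) →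
    (∀ p : ℕ, p.Prime → y < p → p ≤ z → p ∣ m) →
    (k : ℝ) ≤ x * Real.exp (C * (Real.log (Real.log x) + Real.log ((x : ℝ) / z) +
      Real.sqrt (Real.log y * (1 + Real.log ((x : ℝ) / z)))))

lemma sum_primes_window {Cm : ℝ} (hCm : 0 ≤ Cm)
    (hM : ∀ a b : ℕ, 1 ≤ a → a ≤ b → ∑ p ∈ (Helper10.P5.PL b).filter (fun p => a < p),
      Real.log p / p ≤ Real.log b - Real.log a + Cm)
    {x z : ℕ} {L : ℝ} (hL : L = Real.log x) (hL0 : 0 < L) (hz1 : 1 ≤ z) (hzx : z ≤ x)
    (hz : L / 2 ≤ Real.log z) (S : Finset ℕ) (hS : ∀ p ∈ S, p.Prime ∧ z < p ∧ p ≤ x) :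
    ∑ p ∈ S, (1 : ℝ) / p ≤ 2 * (1 + Cm) * (1 + Real.log ((x : ℝ) / z)) / L := by
  have hz0 : (0 : ℝ) < z := by exact_mod_cast hz1
  have hx0 : (0 : ℝ) < x := lt_of_lt_of_le hz0 (by exact_mod_cast hzx)
  have hw : Real.log ((x : ℝ) / z) = Real.log x - Real.log z := Real.log_div hx0.ne' hz0.ne'
  have hw0 : 0 ≤ Real.log ((x : ℝ) / z) := by
    apply Real.log_nonneg
    rw [le_div_iff₀ hz0, one_mul]
    exact_mod_cast hzx
  have h1 : ∑ p ∈ S, (1 : ℝ) / p ≤ (2 / L) * ∑ p ∈ S, Real.log p / p := by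
    rw [Finset.mul_sum]
    apply Finset.sum_le_sum
    intro p hp
    obtain ⟨hpp, hzp, hpx⟩ := hS p hp
    have hp0 : (0 : ℝ) < p := by exact_mod_cast hpp.pos
    have h2 : L / 2 ≤ Real.log p :=
      hz.trans (Real.log_le_log hz0 (by exact_mod_cast hzp.le))
    have h3 : 1 ≤ (2 / L) * Real.log p := by
      calc (1 : ℝ) = (2 / L) * (L / 2) := by field_simp
        _ ≤ _ := mul_le_mul_of_nonneg_left h2 (by positivity)
    calc (1 : ℝ) / p ≤ ((2 / L) * Real.log p) / p := div_le_div_of_nonneg_right h3 hp0.le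
      _ = (2 / L) * (Real.log p / p) := by ring
  have h4 : ∑ p ∈ S, Real.log p / p ≤ Real.log x - Real.log z + Cm := by
    refine le_trans ?_ (hM z x hz1 hzx)
    apply Finset.sum_le_sum_of_subset_of_nonneg
    · intro p hp
      obtain ⟨hpp, hzp, hpx⟩ := hS p hp
      rw [mem_filter, Helper10.P5.mem_PL]
      exact ⟨⟨hpx, hpp⟩, hzp⟩
    · intro p _ _
      exact div_nonneg (Real.log_natCast_nonneg _) (Nat.cast_nonneg _)
  have h5 : Real.log x - Real.log z + Cm ≤ (1 + Cm) * (1 + Real.log ((x : ℝ) / z)) := by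
    rw [← hw]
    nlinarith
  calc ∑ p ∈ S, (1 : ℝ) / p ≤ (2 / L) * ∑ p ∈ S, Real.log p / p := h1
    _ ≤ (2 / L) * ((1 + Cm) * (1 + Real.log ((x : ℝ) / z))) :=
        mul_le_mul_of_nonneg_left (h4.trans h5) (by positivity)
    _ = 2 * (1 + Cm) * (1 + Real.log ((x : ℝ) / z)) / L := by ring

/-- elementary: from the inequality of part (A) to a bound of `log K`. -/
lemma solve_ineq {c₁ β lK ly w : ℝ} (hc₁ : 0 < c₁) (hβ : 0 < β) (hlK : 0 < lK) (hly : 0 < ly)
    (hw : 0 ≤ w) (h : c₁ * min 1 (lK / ly) ≤ c₁ * β * (1 + w) / lK) :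
    lK ≤ β * (1 + w) + Real.sqrt β * Real.sqrt (ly * (1 + w)) := by
  have h1 : min 1 (lK / ly) ≤ β * (1 + w) / lK := by
    have : c₁ * β * (1 + w) / lK = c₁ * (β * (1 + w) / lK) := by ring
    rw [this] at h
    exact le_of_mul_le_mul_left h hc₁
  have hb : 0 ≤ β * (1 + w) := by positivity
  have hs : 0 ≤ Real.sqrt β * Real.sqrt (ly * (1 + w)) := by positivity
  rcases le_total ly lK with h2 | h2
  · have h3 : 1 ≤ lK / ly := by rwa [le_div_iff₀ hly, one_mul]
    rw [min_eq_left h3, le_div_iff₀ hlK, one_mul] at h1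
    linarith
  · have h3 : lK / ly ≤ 1 := by rwa [div_le_one hly]
    rw [min_eq_right h3, div_le_div_iff₀ hly hlK] at h1
    have h4 : lK ^ 2 ≤ β * (ly * (1 + w)) := by nlinarith
    have h5 : lK ≤ Real.sqrt (β * (ly * (1 + w))) := Real.le_sqrt_of_sq_le h4
    rw [Real.sqrt_mul hβ.le] at h5
    linarith

theorem partB_of_partA {C c₀ c₁ : ℝ} (hC : 0 < C) (hc₀ : 0 < c₀) (hc₁ : 0 < c₁)
    (h : StA C c₀ c₁) : ∃ C' c₀' : ℝ, 0 < C' ∧ 0 < c₀' ∧ StB C' c₀' := by
  obtain ⟨Cm, hCm, hM⟩ := Helper10.P5.mertens_interval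
  obtain ⟨β, hβ⟩ : ∃ β, β = 2 * (1 + Cm) / c₁ := ⟨_, rfl⟩
  have hβ0 : 0 < β := by rw [hβ]; positivity
  obtain ⟨C', hC'⟩ : ∃ C', C' = C + β + Real.sqrt β + 1 := ⟨_, rfl⟩
  have hsβ : 0 ≤ Real.sqrt β := Real.sqrt_nonneg _
  have hC'1 : 1 ≤ C' := by rw [hC']; linarith
  have hC'0 : 0 < C' := by linarith
  obtain ⟨c₀', hc₀'⟩ : ∃ c₀', c₀' = min c₀ (min (1 / 2) (1 / (8 * C'))) := ⟨_, rfl⟩
  have hc₀'0 : 0 < c₀' := by
    rw [hc₀']
    exact lt_min hc₀ (lt_min (by norm_num) (by positivity))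
  have hc₀'1 : c₀' ≤ c₀ := by rw [hc₀']; exact min_le_left _ _
  have hc₀'2 : c₀' ≤ 1 / 2 := by
    rw [hc₀']; exact (min_le_right _ _).trans (min_le_left _ _)
  have hc₀'3 : c₀' ≤ 1 / (8 * C') := by
    rw [hc₀']; exact (min_le_right _ _).trans (min_le_right _ _)
  refine ⟨C', c₀', hC'0, hc₀'0, ?_⟩
  intro Q
  obtain ⟨x₁, hx₁⟩ := h Q
  have hlog : Tendsto (fun x : ℕ => Real.log (x : ℝ)) atTop atTop :=
    Real.tendsto_log_atTop.comp tendsto_natCast_atTop_atTop
  obtain ⟨x₂, hx₂⟩ := eventually_atTop.mp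
    (hlog.eventually_ge_atTop (max (Real.exp 1) ((8 * C' + 4) ^ 2)))
  refine ⟨max (max x₁ x₂) 2, ?_⟩
  -- the case k ≤ x ^ 2
  have hcase : ∀ x ≥ max (max x₁ x₂) 2, ∀ (y z k n m : ℕ), (Real.log x) ^ C' ≤ y →
    (y : ℝ) ≤ (x : ℝ) ^ c₀' → (x : ℝ) ^ (1 - c₀') ≤ z → z ≤ x → k ≤ x ^ 2 →
    InA x k n → n ≤ m → m ≤ n + k →
    (∀ p : ℕ, p.Prime → Q < p → p ≤ y → ¬ p ∣ m) →
    (∀ p : ℕ, p.Prime → y < p → p ≤ z → p ∣ m) →
    (k : ℝ) ≤ x * Real.exp (C' * (Real.log (Real.log x) + Real.log ((x : ℝ) / z) +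
      Real.sqrt (Real.log y * (1 + Real.log ((x : ℝ) / z))))) := by
    intro x hx y z k n m hy1 hy2 hz1 hzx hk2 hA hnm hmk hsm hmd
    have hxx₁ : x₁ ≤ x := le_trans (le_trans (le_max_left _ _) (le_max_left _ _)) hx
    have hxx₂ : x₂ ≤ x := le_trans (le_trans (le_max_right _ _) (le_max_left _ _)) hx
    have hx2 : 2 ≤ x := le_trans (le_max_right _ _) hx
    have hx0 : (0 : ℝ) < x := by exact_mod_cast (by omega : 0 < x)
    have hx1r : (1 : ℝ) ≤ x := by exact_mod_cast (by omega : 1 ≤ x)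
    obtain ⟨L, hLdef⟩ : ∃ L, L = Real.log x := ⟨_, rfl⟩
    have hLe : Real.exp 1 ≤ L := by
      rw [hLdef]
      exact le_trans (le_max_left _ _) (hx₂ x hxx₂)
    have hL1 : 1 ≤ L := le_trans (by have := Real.add_one_le_exp (1 : ℝ); linarith) hLe
    have hL0 : 0 < L := by linarith
    have hlogL : 1 ≤ Real.log L := by
      rw [Real.le_log_iff_exp_le hL0]
      exact hLe
    have hz0 : (0 : ℝ) < z := lt_of_lt_of_le (Real.rpow_pos_of_pos hx0 _) hz1
    have hzn : 1 ≤ z := by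
      have : 0 < z := by exact_mod_cast hz0
      omega
    have hlz : L / 2 ≤ Real.log z := by
      have h1 := Real.log_le_log (Real.rpow_pos_of_pos hx0 _) hz1
      rw [Real.log_rpow hx0, ← hLdef] at h1
      nlinarith
    have hw0 : 0 ≤ Real.log ((x : ℝ) / z) := by
      apply Real.log_nonneg
      rw [le_div_iff₀ hz0, one_mul]
      exact_mod_cast hzx
    rw [← hLdef] at hy1 ⊢
    obtain ⟨w, hw⟩ : ∃ w, w = Real.log ((x : ℝ) / z) := ⟨_, rfl⟩
    rw [← hw] at hw0 ⊢
    have hsq0 : 0 ≤ Real.sqrt (Real.log y * (1 + w)) := Real.sqrt_nonneg _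
    -- trivial if k is small
    rcases Nat.eq_zero_or_pos k with hk0 | hk0
    · subst hk0
      rw [Nat.cast_zero]
      positivity
    have hk0r : (0 : ℝ) < k := by exact_mod_cast hk0
    have hgoal : Real.log ((k : ℝ) / x) ≤ C' * (Real.log L + w + Real.sqrt (Real.log y * (1 + w))) →
        (k : ℝ) ≤ x * Real.exp (C' * (Real.log L + w + Real.sqrt (Real.log y * (1 + w)))) := by
      intro h1
      have h2 := Real.exp_le_exp.mpr h1
      rw [Real.exp_log (by positivity), div_le_iff₀ hx0] at h2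
      linarith
    apply hgoal
    have hCC' : C ≤ C' := by rw [hC']; linarith
    rcases lt_or_ge (k : ℝ) (x * L ^ C) with hsmall | hlarge
    · have h1 : (k : ℝ) / x ≤ L ^ C := by
        rw [div_le_iff₀ hx0]
        linarith
      have h2 := Real.log_le_log (by positivity) h1
      rw [Real.log_rpow hL0] at h2
      refine h2.trans ?_
      have h3 : C * Real.log L ≤ C' * Real.log L := mul_le_mul_of_nonneg_right hCC' (by linarith)
      have h4 : 0 ≤ C' * (w + Real.sqrt (Real.log y * (1 + w))) := by positivity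
      nlinarith
    · have hLCC' : L ^ C ≤ L ^ C' := Real.rpow_le_rpow_of_exponent_le hL1 hCC'
      have hy1' : L ^ C ≤ y := hLCC'.trans hy1
      have hy2' : (y : ℝ) ≤ (x : ℝ) ^ c₀ :=
        hy2.trans (Real.rpow_le_rpow_of_exponent_le hx1r hc₀'1)
      have hA' := hx₁ x hxx₁ y k n m (by rw [← hLdef]; exact hy1') hy2'
        (by rw [← hLdef]; exact hlarge) hk2 hA hnm hmk
      rw [← hLdef] at hA'
      have hLC1 : 1 < L ^ C := by
        apply Real.one_lt_rpow _ hC
        have := Real.add_one_le_exp (1 : ℝ)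
        linarith
      have hy1r : (1 : ℝ) < y := lt_of_lt_of_le hLC1 hy1'
      have hly : 0 < Real.log y := Real.log_pos hy1r
      have hK : 1 < (k : ℝ) / x := by
        rw [lt_div_iff₀ hx0, one_mul]
        refine lt_of_lt_of_le ?_ hlarge
        nlinarith
      have hlK : 0 < Real.log ((k : ℝ) / x) := Real.log_pos hK
      have hExc : ∀ p ∈ Exc x y Q m, p.Prime ∧ z < p ∧ p ≤ x := by
        intro p hp
        obtain ⟨hpx, hpp, hQp, h3⟩ := mem_Exc.mp hp
        refine ⟨hpp, ?_, hpx⟩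
        rcases h3 with ⟨h4, h5⟩ | ⟨h4, h5⟩
        · exact absurd h5 (hsm p hpp hQp h4)
        · by_contra h6
          exact h5 (hmd p hpp h4 (by omega))
      have hwin := sum_primes_window hCm hM hLdef hL0 hzn hzx hlz (Exc x y Q m) hExc
      rw [← hw] at hwin
      have hbound : ∑ p ∈ Exc x y Q m, (1 / (p : ℝ)) * (L / Real.log ((k : ℝ) / p)) ≤
          c₁ * β * (1 + w) / Real.log ((k : ℝ) / x) := by
        calc ∑ p ∈ Exc x y Q m, (1 / (p : ℝ)) * (L / Real.log ((k : ℝ) / p))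
            ≤ ∑ p ∈ Exc x y Q m, (1 / (p : ℝ)) * (L / Real.log ((k : ℝ) / x)) := by
              apply Finset.sum_le_sum
              intro p hp
              obtain ⟨hpp, hzp, hpx⟩ := hExc p hp
              have hp0 : (0 : ℝ) < p := by exact_mod_cast hpp.pos
              apply mul_le_mul_of_nonneg_left _ (by positivity)
              apply div_le_div_of_nonneg_left hL0.le hlK
              apply Real.log_le_log (by positivity)
              exact div_le_div_of_nonneg_left hk0r.le hp0 (by exact_mod_cast hpx)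
          _ = (L / Real.log ((k : ℝ) / x)) * ∑ p ∈ Exc x y Q m, (1 : ℝ) / p := by
              rw [← Finset.sum_mul, mul_comm]
          _ ≤ (L / Real.log ((k : ℝ) / x)) * (2 * (1 + Cm) * (1 + w) / L) :=
              mul_le_mul_of_nonneg_left hwin (by positivity)
          _ = c₁ * β * (1 + w) / Real.log ((k : ℝ) / x) := by
              rw [hβ]
              field_simp
      have hs := solve_ineq hc₁ hβ0 hlK hly hw0 (hA'.trans hbound)
      refine hs.trans ?_
      have h3 : β * (1 + w) ≤ C' * (Real.log L + w) := by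
        have hβC : β ≤ C' := by rw [hC']; linarith
        calc β * (1 + w) ≤ β * (Real.log L + w) := by
              apply mul_le_mul_of_nonneg_left _ hβ0.le
              linarith
          _ ≤ C' * (Real.log L + w) := mul_le_mul_of_nonneg_right hβC (by linarith)
      have h4 : Real.sqrt β * Real.sqrt (Real.log y * (1 + w)) ≤
          C' * Real.sqrt (Real.log y * (1 + w)) := by
        apply mul_le_mul_of_nonneg_right _ hsq0
        rw [hC']
        linarith
      linarith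
  intro x hx y z k n m hy1 hy2 hz1 hzx hA hnm hmk hsm hmd
  rcases le_or_gt k (x ^ 2) with hk2 | hk2
  · exact hcase x hx y z k n m hy1 hy2 hz1 hzx hk2 hA hnm hmk hsm hmd
  · exfalso
    obtain ⟨n', hn'1, hn'2, hn'3, hn'4⟩ : ∃ n', n ≤ n' ∧ n' ≤ m ∧ m ≤ n' + x ^ 2 ∧
        n' + x ^ 2 ≤ n + k := by
      refine ⟨min m (n + k - x ^ 2), ?_, min_le_left _ _, ?_, ?_⟩
      · apply le_min hnm
        omega
      · rcases le_total m (n + k - x ^ 2) with h1 | h1
        · rw [min_eq_left h1]; omega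
        · rw [min_eq_right h1]; omega
      · have := min_le_right m (n + k - x ^ 2)
        omega
    have hA' : InA x (x ^ 2) n' := by
      intro i hi
      rw [mem_Icc] at hi
      obtain ⟨p, hp, hpx, hd⟩ := hA (n' - n + i) (mem_Icc.mpr ⟨by omega, by omega⟩)
      refine ⟨p, hp, hpx, ?_⟩
      have : n + (n' - n + i) = n' + i := by omega
      rwa [this] at hd
    have hb := hcase x hx y z (x ^ 2) n' m hy1 hy2 hz1 hzx le_rfl hA' hn'2 hn'3 hsm hmd
    have hxx₂ : x₂ ≤ x := le_trans (le_trans (le_max_right _ _) (le_max_left _ _)) hx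
    have hx2 : 2 ≤ x := le_trans (le_max_right _ _) hx
    have hx0 : (0 : ℝ) < x := by exact_mod_cast (by omega : 0 < x)
    obtain ⟨L, hLdef⟩ : ∃ L, L = Real.log x := ⟨_, rfl⟩
    have hLbig : (8 * C' + 4) ^ 2 ≤ L := by
      rw [hLdef]
      exact le_trans (le_max_right _ _) (hx₂ x hxx₂)
    have hL0 : 0 < L := lt_of_lt_of_le (by positivity) hLbig
    have hL16 : 16 ≤ L := by
      refine le_trans ?_ hLbig
      have h0 : (4 : ℝ) ≤ 8 * C' + 4 := by linarith
      calc (16 : ℝ) = 4 ^ 2 := by norm_num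
        _ ≤ (8 * C' + 4) ^ 2 := pow_le_pow_left₀ (by norm_num) h0 2
    rw [← hLdef] at hb hy1
    have hz0 : (0 : ℝ) < z := lt_of_lt_of_le (Real.rpow_pos_of_pos hx0 _) hz1
    have hy0 : (0 : ℝ) < y := lt_of_lt_of_le (Real.rpow_pos_of_pos hL0 _) hy1
    -- take logarithms
    have h1 : L ≤ C' * (Real.log L + Real.log ((x : ℝ) / z) +
        Real.sqrt (Real.log y * (1 + Real.log ((x : ℝ) / z)))) := by
      push_cast at hb
      rw [pow_two] at hb
      have h2 := le_of_mul_le_mul_left hb hx0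
      have h3 := Real.log_le_log hx0 h2
      rwa [Real.log_exp, ← hLdef] at h3
    have hw : Real.log ((x : ℝ) / z) ≤ c₀' * L := by
      have h2 := Real.log_le_log (Real.rpow_pos_of_pos hx0 _) hz1
      rw [Real.log_rpow hx0, ← hLdef] at h2
      rw [Real.log_div hx0.ne' hz0.ne', ← hLdef]
      linarith
    have hw0 : 0 ≤ Real.log ((x : ℝ) / z) := by
      apply Real.log_nonneg
      rw [le_div_iff₀ hz0, one_mul]
      exact_mod_cast hzx
    have hly : Real.log y ≤ c₀' * L := by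
      have h2 := Real.log_le_log hy0 hy2
      rwa [Real.log_rpow hx0, ← hLdef] at h2
    have hly0 : 0 ≤ Real.log y := by
      apply Real.log_nonneg
      refine le_trans ?_ hy1
      exact Real.one_le_rpow (by linarith) hC'0.le
    have hsq : Real.sqrt (Real.log y * (1 + Real.log ((x : ℝ) / z))) ≤ c₀' * L + 1 / 2 := by
      rw [Real.sqrt_le_left (by positivity)]
      nlinarith [sq_nonneg (Real.log y - (1 + Real.log ((x : ℝ) / z)))]
    have hll : Real.log L ≤ 2 * Real.sqrt L := by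
      have hs : 0 < Real.sqrt L := Real.sqrt_pos.mpr hL0
      have h2 := Real.log_le_sub_one_of_pos hs
      rw [Real.log_sqrt hL0.le] at h2
      linarith
    have hsL : 8 * C' + 4 ≤ Real.sqrt L := Real.le_sqrt_of_sq_le hLbig
    have hsL2 : Real.sqrt L * Real.sqrt L = L := Real.mul_self_sqrt hL0.le
    have hc3 : C' * (c₀' * L) ≤ L / 8 := by
      have h2 : C' * c₀' ≤ 1 / 8 := by
        calc C' * c₀' ≤ C' * (1 / (8 * C')) := mul_le_mul_of_nonneg_left hc₀'3 hC'0.le
          _ = 1 / 8 := by field_simp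
      nlinarith
    have h4 : L ≤ C' * (2 * Real.sqrt L) + L / 8 + L / 8 + C' / 2 := by
      calc L ≤ C' * (Real.log L + Real.log ((x : ℝ) / z) +
            Real.sqrt (Real.log y * (1 + Real.log ((x : ℝ) / z)))) := h1
        _ ≤ C' * (2 * Real.sqrt L + c₀' * L + (c₀' * L + 1 / 2)) := by
            apply mul_le_mul_of_nonneg_left _ hC'0.le
            linarith
        _ = C' * (2 * Real.sqrt L) + C' * (c₀' * L) + C' * (c₀' * L) + C' / 2 := by ring
        _ ≤ _ := by linarith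
    have h5 : (8 * C' + 4) * Real.sqrt L ≤ L := by
      calc (8 * C' + 4) * Real.sqrt L ≤ Real.sqrt L * Real.sqrt L :=
            mul_le_mul_of_nonneg_right hsL (Real.sqrt_nonneg _)
        _ = L := hsL2
    have h6 : C' ≤ C' * Real.sqrt L := by
      calc C' = C' * 1 := (mul_one _).symm
        _ ≤ C' * Real.sqrt L := mul_le_mul_of_nonneg_left (by linarith) hC'0.le
    have h7 : (8 * C' + 4) * Real.sqrt L = 8 * (C' * Real.sqrt L) + 4 * Real.sqrt L := by ring
    have h8 : C' * (2 * Real.sqrt L) = 2 * (C' * Real.sqrt L) := by ring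
    rw [h7] at h5
    rw [h8] at h4
    have h9 : 0 < Real.sqrt L := Real.sqrt_pos.mpr hL0
    linarith

end Pool.Agent.Helper6.ER
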