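import Mathlib
import Pool.Agent.Helper6.ER.PartB

/-! The exponent one in the Erdos-Rankin model. -/

namespace Pool.Agent.Helper6.ER

open Finset Filter

/-- the statement of part (C) for a given constant -/
def StC (C : ℝ) : Prop := ∀ ε : ℝ, 0 < ε → ∃ c : ℝ, 0 < c ∧ ∀ Q : ℕ, ∃ k₀ : ℕ, ∀ k ≥ k₀,
    ∀ (x y z n m : ℕ), (Real.log x) ^ C ≤ y → (y : ℝ) ≤ (x : ℝ) ^ c →
    (x : ℝ) ^ (1 - c) ≤ z → z ≤ x → InA x k n → n ≤ m → m ≤ n + k →
    (∀ p : ℕ, p.Prime → Q < p → p ≤ y → ¬ p ∣ m) →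
    (∀ p : ℕ, p.Prime → y < p → p ≤ z → p ∣ m) →
    (k : ℝ) ^ (1 - ε) ≤ x

lemma run_lt {x k n : ℕ} (h : InA x k n) : k < ∏ p ∈ PR x, p := by
  obtain ⟨W, hW⟩ : ∃ W, W = ∏ p ∈ PR x, p := ⟨_, rfl⟩
  rw [← hW]
  by_contra hk
  push Not at hk
  have hW0 : 0 < W := by
    rw [hW]
    exact Finset.prod_pos (fun p hp => (mem_PR.mp hp).2.pos)
  -- i with n + i = 1 mod W
  obtain ⟨i, hi1, hi2, t, ht⟩ : ∃ i, 1 ≤ i ∧ i ≤ W ∧ ∃ t, n + i = W * t + 1 := by
    have h1 := Nat.div_add_mod n W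
    have h2 := Nat.mod_lt n hW0
    rcases Nat.eq_zero_or_pos (n % W) with h0 | h0
    · exact ⟨1, le_rfl, hW0, n / W, by omega⟩
    · refine ⟨W + 1 - n % W, by omega, by omega, n / W + 1, ?_⟩
      rw [Nat.mul_add, Nat.mul_one]
      omega
  obtain ⟨p, hp, hpx, hd⟩ := h i (mem_Icc.mpr ⟨hi1, hi2.trans hk⟩)
  have hpW : p ∣ W := by
    rw [hW]
    exact Finset.dvd_prod_of_mem _ (mem_PR.mpr ⟨hpx, hp⟩)
  rw [ht] at hd
  have h1 : p ∣ 1 := (Nat.dvd_add_right (hpW.mul_right t)).mp hd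
  have := hp.one_lt
  have := Nat.le_of_dvd (by norm_num) h1
  omega

theorem partC_of_partB {C c₀ : ℝ} (hC : 0 < C) (hc₀ : 0 < c₀) (h : StB C c₀) : StC C := by
  intro ε hε
  obtain ⟨c, hc⟩ : ∃ c, c = min c₀ (ε / (8 * C)) := ⟨_, rfl⟩
  have hc0 : 0 < c := by rw [hc]; exact lt_min hc₀ (by positivity)
  have hc1 : c ≤ c₀ := by rw [hc]; exact min_le_left _ _
  have hc2 : c ≤ ε / (8 * C) := by rw [hc]; exact min_le_right _ _
  refine ⟨c, hc0, ?_⟩
  intro Q
  obtain ⟨x₁, hx₁⟩ := h Q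
  have hlog : Tendsto (fun x : ℕ => Real.log (x : ℝ)) atTop atTop :=
    Real.tendsto_log_atTop.comp tendsto_natCast_atTop_atTop
  obtain ⟨S, hS⟩ : ∃ S : ℝ, S = 8 * C / ε + 8 * C + 4 := ⟨_, rfl⟩
  obtain ⟨x₂, hx₂⟩ := eventually_atTop.mp (hlog.eventually_ge_atTop (S ^ 2))
  obtain ⟨x₀, hx₀⟩ : ∃ x₀, x₀ = max (max x₁ x₂) 2 := ⟨_, rfl⟩
  refine ⟨max 1 (∏ p ∈ PR x₀, p), ?_⟩
  intro k hk x y z n m hy1 hy2 hz1 hzx hA hnm hmk hsm hmd
  have hk1 : 1 ≤ k := le_trans (le_max_left _ _) hk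
  have hk2 : ∏ p ∈ PR x₀, p ≤ k := le_trans (le_max_right _ _) hk
  have hk1r : (1 : ℝ) ≤ k := by exact_mod_cast hk1
  have hk0r : (0 : ℝ) < k := by linarith
  have hxx : x₀ ≤ x := by
    by_contra hlt
    push Not at hlt
    have h1 := run_lt hA
    have h2 : ∏ p ∈ PR x, p ≤ ∏ p ∈ PR x₀, p := by
      apply Finset.prod_le_prod_of_subset_of_one_le'
      · intro p hp
        rw [mem_PR] at hp ⊢
        exact ⟨by omega, hp.2⟩
      · intro p hp _
        exact (mem_PR.mp hp).2.pos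
    omega
  have hxx₁ : x₁ ≤ x := le_trans (le_trans (le_max_left _ _) (le_max_left _ _)) (hx₀ ▸ hxx)
  have hxx₂ : x₂ ≤ x := le_trans (le_trans (le_max_right _ _) (le_max_left _ _)) (hx₀ ▸ hxx)
  have hx2 : 2 ≤ x := le_trans (le_max_right _ _) (hx₀ ▸ hxx)
  have hx0 : (0 : ℝ) < x := by exact_mod_cast (by omega : 0 < x)
  have hx1r : (1 : ℝ) ≤ x := by exact_mod_cast (by omega : 1 ≤ x)
  have hz0 : (0 : ℝ) < z := lt_of_lt_of_le (Real.rpow_pos_of_pos hx0 _) hz1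
  have hb := hx₁ x hxx₁ y z k n m hy1 (hy2.trans (Real.rpow_le_rpow_of_exponent_le hx1r hc1))
    ((Real.rpow_le_rpow_of_exponent_le hx1r (by linarith)).trans hz1) hzx hA hnm hmk hsm hmd
  obtain ⟨L, hLdef⟩ : ∃ L, L = Real.log x := ⟨_, rfl⟩
  have hLbig : S ^ 2 ≤ L := by rw [hLdef]; exact hx₂ x hxx₂
  have hS4 : 4 ≤ S := by
    rw [hS]
    have : 0 ≤ 8 * C / ε := by positivity
    linarith
  have hL16 : 16 ≤ L := by
    refine le_trans ?_ hLbig
    calc (16 : ℝ) = 4 ^ 2 := by norm_num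
      _ ≤ S ^ 2 := pow_le_pow_left₀ (by norm_num) hS4 2
  have hL0 : 0 < L := by linarith
  rw [← hLdef] at hb hy1
  have hy0 : (0 : ℝ) < y := lt_of_lt_of_le (Real.rpow_pos_of_pos hL0 _) hy1
  have hw : Real.log ((x : ℝ) / z) ≤ c * L := by
    have h2 := Real.log_le_log (Real.rpow_pos_of_pos hx0 _) hz1
    rw [Real.log_rpow hx0, ← hLdef] at h2
    rw [Real.log_div hx0.ne' hz0.ne', ← hLdef]
    linarith
  have hw0 : 0 ≤ Real.log ((x : ℝ) / z) := by
    apply Real.log_nonneg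
    rw [le_div_iff₀ hz0, one_mul]
    exact_mod_cast hzx
  have hly : Real.log y ≤ c * L := by
    have h2 := Real.log_le_log hy0 hy2
    rwa [Real.log_rpow hx0, ← hLdef] at h2
  have hly0 : 0 ≤ Real.log y := by
    apply Real.log_nonneg
    exact (Real.one_le_rpow (by linarith) hC.le).trans hy1
  have hsq : Real.sqrt (Real.log y * (1 + Real.log ((x : ℝ) / z))) ≤ c * L + 1 / 2 := by
    rw [Real.sqrt_le_left (by positivity)]
    nlinarith [sq_nonneg (Real.log y - (1 + Real.log ((x : ℝ) / z)))]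
  have hll : Real.log L ≤ 2 * Real.sqrt L := by
    have hs : 0 < Real.sqrt L := Real.sqrt_pos.mpr hL0
    have h2 := Real.log_le_sub_one_of_pos hs
    rw [Real.log_sqrt hL0.le] at h2
    linarith
  have hsL : S ≤ Real.sqrt L := Real.le_sqrt_of_sq_le hLbig
  have hsL2 : Real.sqrt L * Real.sqrt L = L := Real.mul_self_sqrt hL0.le
  -- log k ≤ (1 + ε) L
  have hlogk : Real.log k ≤ L + C * (Real.log L + Real.log ((x : ℝ) / z) +
      Real.sqrt (Real.log y * (1 + Real.log ((x : ℝ) / z)))) := by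
    have h3 := Real.log_le_log hk0r hb
    rwa [Real.log_mul hx0.ne' (Real.exp_pos _).ne', Real.log_exp, ← hLdef] at h3
  have hCc : C * (c * L) ≤ ε * L / 8 := by
    have h2 : C * c ≤ ε / 8 := by
      calc C * c ≤ C * (ε / (8 * C)) := mul_le_mul_of_nonneg_left hc2 hC.le
        _ = ε / 8 := by field_simp
    calc C * (c * L) = (C * c) * L := by ring
      _ ≤ (ε / 8) * L := mul_le_mul_of_nonneg_right h2 hL0.le
      _ = ε * L / 8 := by ring
  have hCs : C * (2 * Real.sqrt L) ≤ ε * L / 4 := by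
    have h1 : 8 * C / ε ≤ Real.sqrt L := by
      refine le_trans ?_ hsL
      rw [hS]
      linarith
    rw [div_le_iff₀ hε] at h1
    have h2 : 8 * C * Real.sqrt L ≤ Real.sqrt L * ε * Real.sqrt L :=
      mul_le_mul_of_nonneg_right h1 (Real.sqrt_nonneg _)
    have h3 : Real.sqrt L * ε * Real.sqrt L = ε * L := by
      rw [mul_comm (Real.sqrt L) ε, mul_assoc, hsL2]
    rw [h3] at h2
    linarith
  have hCh : C * (1 / 2) ≤ ε * L / 16 := by
    have h1 : (1 : ℝ) ≤ Real.sqrt L := by linarith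
    have h2 : C ≤ C * Real.sqrt L := by
      calc C = C * 1 := (mul_one _).symm
        _ ≤ C * Real.sqrt L := mul_le_mul_of_nonneg_left h1 hC.le
    linarith
  have hfin : Real.log k ≤ L * (1 + ε) := by
    calc Real.log k ≤ L + C * (Real.log L + Real.log ((x : ℝ) / z) +
          Real.sqrt (Real.log y * (1 + Real.log ((x : ℝ) / z)))) := hlogk
      _ ≤ L + C * (2 * Real.sqrt L + c * L + (c * L + 1 / 2)) := by
          have := mul_le_mul_of_nonneg_left (show Real.log L + Real.log ((x : ℝ) / z) +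
            Real.sqrt (Real.log y * (1 + Real.log ((x : ℝ) / z))) ≤
            2 * Real.sqrt L + c * L + (c * L + 1 / 2) by linarith) hC.le
          linarith
      _ = L + (C * (2 * Real.sqrt L) + C * (c * L) + C * (c * L) + C * (1 / 2)) := by ring
      _ ≤ L + (ε * L / 4 + ε * L / 8 + ε * L / 8 + ε * L / 16) := by linarith
      _ ≤ L * (1 + ε) := by
          have : 0 < ε * L := by positivity
          linarith
  -- conclusion
  rcases le_or_gt 1 ε with h1 | h1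
  · calc (k : ℝ) ^ (1 - ε) ≤ (k : ℝ) ^ (0 : ℝ) :=
          Real.rpow_le_rpow_of_exponent_le hk1r (by linarith)
      _ = 1 := Real.rpow_zero _
      _ ≤ x := hx1r
  · have h2 : (1 - ε) * Real.log k ≤ L := by
      calc (1 - ε) * Real.log k ≤ (1 - ε) * (L * (1 + ε)) :=
            mul_le_mul_of_nonneg_left hfin (by linarith)
        _ = L * (1 - ε ^ 2) := by ring
        _ ≤ L * 1 := mul_le_mul_of_nonneg_left (by nlinarith) hL0.le
        _ = L := mul_one _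
    rw [Real.rpow_def_of_pos hk0r, ← Real.exp_log hx0, ← hLdef]
    apply Real.exp_le_exp.mpr
    linarith

end Pool.Agent.Helper6.ER
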