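import Mathlib
import Pool.Agent.Helper6.ER.PartC
import Pool.Agent.Helper11.ER.BoxLower
import Pool.Agent.Helper31.ER.BV
import Pool.Agent.Helper34.ER.Bilin
import Pool.Agent.Helper4.ER.CountError
import Pool.Agent.Helper4.ER.Capacity
import Pool.Agent.Helper16.ER.TauPhi

/-! All parts put together. -/

namespace Pool.Agent.Helper6.ER

open Finset

theorem bv_final : BL.BvLite := BV.bv_lite_of interval_bilinear

theorem exists_core : ∃ (C c₀ c₁ : ℝ), 0 < C ∧ 0 < c₀ ∧ 0 < c₁ ∧ StCore C c₀ c₁ := by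
  obtain ⟨A, Cb, hA, hCb, hbox⟩ := box_lower_of bv_final
    (fun M R d b hR hd hdR hb P hP => count_error M R d b hR hd hdR hb P hP)
  obtain ⟨c, B, hc, hB, hpc⟩ := prime_count
  obtain ⟨cM, hcM, hpg⟩ := prod_primes_ge
  obtain ⟨Cc, hCc, hcap⟩ := capacity
  exact core_of (B := B) hA hCb hc hcM hCc hbox hpc hpg hcap

theorem exists_A : ∃ (C c₀ c₁ : ℝ), 0 < C ∧ 0 < c₀ ∧ 0 < c₁ ∧ StA C c₀ c₁ := by
  obtain ⟨C, c₀, c₁, hC, hc₀, hc₁, h⟩ := exists_core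
  exact ⟨C + 1, c₀, c₁ / 4, by linarith, hc₀, by linarith, partA_of_core hC hc₁ h⟩

theorem exists_B : ∃ (C c₀ : ℝ), 0 < C ∧ 0 < c₀ ∧ StB C c₀ := by
  obtain ⟨C, c₀, c₁, hC, hc₀, hc₁, h⟩ := exists_A
  exact partB_of_partA hC hc₀ hc₁ h

theorem exists_C : ∃ C : ℝ, 0 < C ∧ StC C := by
  obtain ⟨C, c₀, hC, hc₀, h⟩ := exists_B
  exact ⟨C, hC, partC_of_partB hC hc₀ h⟩

end Pool.Agent.Helper6.ER
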